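import Pool.Agent.H39.HO.BS
import Pool.Agent.H64.TL.Sph

/-!
# Components which separate the sphere or contain a critical point

`NFP f`: every nonempty closed subset of the post-critical set which is mapped into itself meets a component of the
post-critical set which separates the sphere or contains a critical point. `nfp_all`: all families, by `nfs_all`
and `sph_inj` (H64/TL). `nfm_all`: one critical point in the Julia set and no separating component: a nonempty closed
subset which is mapped into itself meets all components.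
-/

set_option autoImplicit false

open Filter Topology Polynomial Metric Set MeasureTheory

namespace Pool.Agent.H39.HO

open Pool.Agent.H44.Fatou (rat rat_continuous)
open Pool.Agent.H32.BT Pool.Agent.H79.Eul Pool.Agent.H79.Par
open Pool.Agent.H35.EX Pool.Agent.H44.RR Pool.Agent.H44.RC Pool.Agent.H47.RJ
open Pool.Agent.H47.NM Pool.Agent.H47.NN Pool.Agent.H44.ND Pool.Agent.H79.ES Pool.Agent.H44.RG
open Pool.Agent.H44.CP Pool.Agent.H47.PS Pool.Agent.H64.NC Pool.Agent.H57.CF
open Pool.Agent.H64.JS (KJ kj_inv it_mem cmp_cl)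
open Pool.Agent.H64.TL (sph_inj)

variable {d : ℕ}

/-- the post-critical set has no interior or is the sphere -/
theorem kj_int {v : E d} (hd : 2 ≤ d) (hcop : IsCoprime (pol v.1) (pol v.2))
    (hdeg : max (pol v.1).natDegree (pol v.2).natDegree = d) :
    interior (KJ {c | IsCrit (Rf v) c} (JS (Rf v)) (Rf v)) = ∅ ∨ KJ {c | IsCrit (Rf v) c} (JS (Rf v)) (Rf v) = univ := by
  have hcont : Continuous (Rf v) := rat_continuous hcop
  obtain ⟨K, hK⟩ : ∃ K, K = KJ {c | IsCrit (Rf v) c} (JS (Rf v)) (Rf v) := ⟨_, rfl⟩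
  rw [← hK]
  have hKf : ∀ x ∈ K, Rf v x ∈ K := hK ▸ kj_inv hcont
  have hKc : IsClosed K := hK ▸ isClosed_closure
  rcases eq_empty_or_nonempty (interior K) with h0 | ⟨y, hy⟩
  · exact Or.inl h0
  · right
    have hJ : K ⊆ JS (Rf v) := hK ▸ Pool.Agent.H64.JS.kj_sub (js_closed (Rf v)) (fun x hx h1 =>
      hx ((fs_iff (by omega) hcop hdeg 1 x).1 h1))
    have hfin := Pool.Agent.H47.RJ.exc_fin hd hcop hdeg (isOpen_interior (s := K)) ⟨y, hy, hJ (interior_subset hy)⟩
    have hsub : Kᶜ ⊆ {x | ∀ j : ℕ, x ∉ (Rf v)^[j] '' interior K} := by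
      rintro x hx j ⟨z, hz, rfl⟩
      exact hx (it_mem hKf (interior_subset hz) j)
    by_contra hne
    obtain ⟨x, hx⟩ := (ne_univ_iff_exists_notMem K).1 hne
    exact infinite_of_mem_nhds x (hKc.isOpen_compl.mem_nhds hx) (hfin.subset hsub)

/-- every nonempty closed subset of the post-critical set which is mapped into itself meets a component of the
post-critical set which separates the sphere or contains a critical point -/
def NFP (f : OnePoint ℂ → OnePoint ℂ) : Prop :=
  ∀ L ⊆ KJ {c | IsCrit f c} (JS f) f, IsClosed L → L.Nonempty → (∀ x ∈ L, f x ∈ L) →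
    ∃ x ∈ L, ¬ IsPreconnected (connectedComponentIn (KJ {c | IsCrit f c} (JS f) f) x)ᶜ ∨
      ∃ c ∈ connectedComponentIn (KJ {c | IsCrit f c} (JS f) f) x, IsCrit f c

theorem nfp_of {v : E d} (hd : 2 ≤ d) (hcop : IsCoprime (pol v.1) (pol v.2))
    (hdeg : max (pol v.1).natDegree (pol v.2).natDegree = d) (h : NFS (Rf v)) : NFP (Rf v) := by
  intro L hL hLc hLn hLf
  by_contra hcon
  push Not at hcon
  have hcont : Continuous (Rf v) := rat_continuous hcop
  obtain ⟨x, hx, h1⟩ := h L hL hLc hLn hLf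
  rcases h1 with h1 | h1
  · exact h1 (hcon x hx).1
  obtain ⟨K, hK⟩ : ∃ K, K = KJ {c | IsCrit (Rf v) c} (JS (Rf v)) (Rf v) := ⟨_, rfl⟩
  rw [← hK] at h1 hcon hL
  have hKf : ∀ x ∈ K, Rf v x ∈ K := hK ▸ kj_inv hcont
  have hKc : IsClosed K := hK ▸ isClosed_closure
  obtain ⟨c0, hc0, -⟩ : ∃ c, IsCrit (Rf v) c ∧ c ∈ JS (Rf v) := by
    have h2 : x ∈ KJ {c | IsCrit (Rf v) c} (JS (Rf v)) (Rf v) := hK ▸ hL hx
    obtain ⟨-, c, hc, hcJ, -⟩ := closure_nonempty_iff.1
      (⟨x, h2⟩ : (KJ {c | IsCrit (Rf v) c} (JS (Rf v)) (Rf v)).Nonempty)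
    exact ⟨c, hc, hcJ⟩
  have hnc : ∀ y ∈ connectedComponentIn K x, ¬ IsCrit (Rf v) y := fun y hy h2 => (hcon x hx).2 y hy h2
  have hint : interior K = ∅ := by
    rcases kj_int hd hcop hdeg with h2 | h2
    · rw [← hK] at h2
      exact h2
    · exfalso
      rw [← hK] at h2
      rw [h2, connectedComponentIn_univ, PreconnectedSpace.connectedComponent_eq_univ] at hnc
      exact hnc c0 (mem_univ c0) hc0
  obtain ⟨V, hV, hVi⟩ := sph_inj hcont (C := connectedComponentIn K x) (C' := connectedComponentIn K (Rf v x))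
    (cmp_cl hKc x) isPreconnected_connectedComponentIn (fun h2 => by
      rw [h2] at hnc
      exact hnc c0 (mem_univ c0) hc0) (fun y hy => by
      by_contra h2
      exact hnc y hy h2) (by
      have h2 : Rf v '' connectedComponentIn K x ⊆ connectedComponentIn K (Rf v x) :=
        (isPreconnected_connectedComponentIn.image (Rf v) hcont.continuousOn).subset_connectedComponentIn
          ⟨x, mem_connectedComponentIn (hL hx), rfl⟩ (by
            rintro _ ⟨y, hy, rfl⟩
            exact hKf y (connectedComponentIn_subset K x hy))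
      exact fun y hy => h2 (mem_image_of_mem _ hy)) (cmp_cl hKc _) (hcon _ (hLf x hx)).1 (by
      rw [← subset_empty_iff, ← hint]
      exact interior_mono (connectedComponentIn_subset K _))
  exact h1 V hV hVi

/-- all families -/
theorem nfp_all {m : ℕ} (hd : 2 ≤ d) (hm : m ≤ d) {x : Em d m} (hcop : IsCoprime (pol x.1) (pol x.2))
    (hdeg : max (pol x.1).natDegree (pol x.2).natDegree = d) (hup : ¬ UpF d m x) : NFP (Rf (ex d m x)) :=
  nfp_of hd (ex_cop hcop) (ex_deg hdeg) (nfs_all hd hm hcop hdeg hup)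

/-- the union of the components which meet a closed set is closed -/
theorem sat_closed {X : Type*} [TopologicalSpace X] [T2Space X] [CompactSpace X] {K L : Set X} (hK : IsClosed K)
    (hL : IsClosed L) (hLK : L ⊆ K) : IsClosed {y | y ∈ K ∧ (connectedComponentIn K y ∩ L).Nonempty} := by
  have hKc : CompactSpace K := isCompact_iff_compactSpace.1 hK.isCompact
  obtain ⟨M, hM⟩ : ∃ M : Set K, M = ((↑) : K → X) ⁻¹' L := ⟨_, rfl⟩
  have hMc : IsCompact M := (hM ▸ hL.preimage continuous_subtype_val : IsClosed M).isCompact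
  obtain ⟨S, hS⟩ : ∃ S : Set K, S = ((↑) : K → ConnectedComponents K) ⁻¹' (((↑) : K → ConnectedComponents K) '' M) :=
    ⟨_, rfl⟩
  have hSc : IsClosed S := hS ▸ ((hMc.image ConnectedComponents.continuous_coe).isClosed.preimage
    ConnectedComponents.continuous_coe)
  have h1 : {y | y ∈ K ∧ (connectedComponentIn K y ∩ L).Nonempty} = ((↑) : K → X) '' S := by
    ext y
    constructor
    · rintro ⟨hy, l, hl, hlL⟩
      rw [connectedComponentIn_eq_image hy] at hl
      obtain ⟨l', hl', rfl⟩ := hl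
      refine ⟨⟨y, hy⟩, ?_, rfl⟩
      rw [hS]
      refine ⟨l', by rw [hM]; exact hlL, ?_⟩
      exact ConnectedComponents.coe_eq_coe'.2 hl'
    · rintro ⟨y', hy', rfl⟩
      rw [hS] at hy'
      obtain ⟨l', hl', he⟩ := hy'
      refine ⟨y'.2, l', ?_, by rw [hM] at hl'; exact hl'⟩
      rw [connectedComponentIn_eq_image y'.2]
      exact ⟨l', ConnectedComponents.coe_eq_coe'.1 he, rfl⟩
  rw [h1]
  exact hK.isClosedEmbedding_subtypeVal.isClosedMap _ hSc

/-- one critical point in the Julia set: a nonempty closed subset of the post-critical set which is mapped into itself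
meets a component which separates the sphere or meets all components -/
def NFM (f : OnePoint ℂ → OnePoint ℂ) : Prop :=
  (∀ c ∈ JS f, ∀ c' ∈ JS f, IsCrit f c → IsCrit f c' → c = c') →
    ∀ L ⊆ KJ {c | IsCrit f c} (JS f) f, IsClosed L → L.Nonempty → (∀ x ∈ L, f x ∈ L) →
      (∃ x ∈ L, ¬ IsPreconnected (connectedComponentIn (KJ {c | IsCrit f c} (JS f) f) x)ᶜ) ∨
        ∀ y ∈ KJ {c | IsCrit f c} (JS f) f, (connectedComponentIn (KJ {c | IsCrit f c} (JS f) f) y ∩ L).Nonempty

theorem nfm_of {f : OnePoint ℂ → OnePoint ℂ} (hf : Continuous f) (hJf : ∀ x ∈ JS f, f x ∈ JS f) (h : NFP f) : NFM f := by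
  intro huniq L hL hLc hLn hLf
  obtain ⟨x, hx, h1 | ⟨c, hc, hcr⟩⟩ := h L hL hLc hLn hLf
  · exact Or.inl ⟨x, hx, h1⟩
  right
  obtain ⟨K, hK⟩ : ∃ K, K = KJ {c | IsCrit f c} (JS f) f := ⟨_, rfl⟩
  rw [← hK] at hc hL ⊢
  have hKf : ∀ x ∈ K, f x ∈ K := hK ▸ kj_inv hf
  have hKc : IsClosed K := hK ▸ isClosed_closure
  have hKJ : K ⊆ JS f := hK ▸ Pool.Agent.H64.JS.kj_sub (js_closed f) hJf
  have hcK : c ∈ K := connectedComponentIn_subset K x hc
  have hsat := sat_closed hKc hLc hL
  have hm : ∀ y ∈ K, (connectedComponentIn K y ∩ L).Nonempty → (connectedComponentIn K (f y) ∩ L).Nonempty := by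
    rintro y hy ⟨l, hl, hlL⟩
    have h2 : f '' connectedComponentIn K y ⊆ connectedComponentIn K (f y) :=
      (isPreconnected_connectedComponentIn.image f hf.continuousOn).subset_connectedComponentIn
        ⟨y, mem_connectedComponentIn hy, rfl⟩ (by
          rintro _ ⟨y', hy', rfl⟩
          exact hKf y' (connectedComponentIn_subset K y hy'))
    exact ⟨f l, h2 (mem_image_of_mem f hl), hLf l hlL⟩
  have hn : ∀ n : ℕ, f^[n] c ∈ K ∧ (connectedComponentIn K (f^[n] c) ∩ L).Nonempty := by
    intro n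
    induction n with
    | zero =>
      refine ⟨hcK, x, ?_, hx⟩
      have h3 : connectedComponentIn K x = connectedComponentIn K c := connectedComponentIn_eq hc
      rw [Function.iterate_zero_apply, ← h3]
      exact mem_connectedComponentIn (hL hx)
    | succ n ih =>
      rw [Function.iterate_succ_apply']
      exact ⟨hKf _ ih.1, hm _ ih.1 ih.2⟩
  have hsub : K ⊆ {y | y ∈ K ∧ (connectedComponentIn K y ∩ L).Nonempty} := by
    have h2 : KJ {c | IsCrit f c} (JS f) f ⊆ {y | y ∈ K ∧ (connectedComponentIn K y ∩ L).Nonempty} := by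
      refine closure_minimal ?_ hsat
      rintro y ⟨c', hc', hc'J, n, -, rfl⟩
      have h3 : c' = c := huniq c' hc'J c (hKJ hcK) hc' hcr
      rw [h3]
      exact hn n
    exact hK ▸ h2
  exact fun y hy => (hsub hy).2

/-- all families -/
theorem nfm_all {m : ℕ} (hd : 2 ≤ d) (hm : m ≤ d) {x : Em d m} (hcop : IsCoprime (pol x.1) (pol x.2))
    (hdeg : max (pol x.1).natDegree (pol x.2).natDegree = d) (hup : ¬ UpF d m x) : NFM (Rf (ex d m x)) :=
  nfm_of (rat_continuous (ex_cop hcop)) (fun y hy h1 => hy ((fs_iff (by omega) (ex_cop hcop) (ex_deg hdeg) 1 y).1 h1))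
    (nfp_all hd hm hcop hdeg hup)

end Pool.Agent.H39.HO
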