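import Pool.Agent.H39.HO.CO
import Pool.Agent.H56.TH.HA
import Pool.Agent.H56.UD.DA

/-!
# THEOREM H without total disconnectedness: the pull back of a window

`inj_open`: injective holomorphic maps are open. `inj_hol`: their inverses are holomorphic. `rpull`: the component of `z`
in `A ∩ f⁻¹ V₀` is a window in `A`, and its boundary in a compact `S ⊆ A` is not longer than the boundary of `V₀`.
-/

set_option autoImplicit false

open Filter Topology Metric Set MeasureTheory
open scoped MeasureTheory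

namespace Pool.Agent.H39.HO

open Pool.Agent.H56.TH

variable {f : ℂ → ℂ} {P L N : Set ℂ} {ρ : ℂ → ENNReal}

/-- injective holomorphic maps are open -/
theorem inj_open {A : Set ℂ} (hA : IsOpen A) (hf : DifferentiableOn ℂ f A) (hi : InjOn f A) {s : Set ℂ}
    (hs : s ⊆ A) (ho : IsOpen s) : IsOpen (f '' s) := by
  rw [isOpen_iff_mem_nhds]
  rintro _ ⟨x, hx, rfl⟩
  obtain ⟨r, hr, hrs⟩ := Metric.isOpen_iff.1 ho x hx
  have hfb : DifferentiableOn ℂ f (ball x r) := hf.mono (hrs.trans hs)
  rcases (hfb.analyticOnNhd isOpen_ball).is_constant_or_isOpen (convex_ball x r).isPreconnected with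
    ⟨w, hw⟩ | h1
  · exfalso
    have h2 : x ∈ ball x r := mem_ball_self hr
    have h3 : x + ((r / 2 : ℝ) : ℂ) ∈ ball x r := by
      rw [mem_ball_iff_norm, add_sub_cancel_left, Complex.norm_real, Real.norm_of_nonneg (by positivity)]
      linarith
    have h4 := hi (hs (hrs h2)) (hs (hrs h3)) ((hw _ h2).trans (hw _ h3).symm)
    have h5 : ((r / 2 : ℝ) : ℂ) = 0 := by linear_combination -h4
    have h6 : r / 2 = 0 := by exact_mod_cast h5
    linarith
  · exact mem_of_superset ((h1 _ subset_rfl isOpen_ball).mem_nhds (mem_image_of_mem f (mem_ball_self hr)))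
      (image_mono hrs)

/-- the inverse of an injective holomorphic map -/
theorem inj_hol {A : Set ℂ} (hA : IsOpen A) (hf : DifferentiableOn ℂ f A) (hi : InjOn f A) :
    DifferentiableOn ℂ (Function.invFunOn f A) (f '' A) := by
  obtain ⟨k, hk⟩ : ∃ k, k = Function.invFunOn f A := ⟨_, rfl⟩
  rw [← hk]
  have hopen := fun s (hs : s ⊆ A) ho => inj_open hA hf hi hs ho
  have hkmem : ∀ w ∈ f '' A, k w ∈ A := fun w hw => by
    rw [hk]
    exact Function.invFunOn_mem hw
  have hkeq : ∀ w ∈ f '' A, f (k w) = w := fun w hw => by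
    rw [hk]
    exact Function.invFunOn_eq hw
  have hkg : ∀ y ∈ A, k (f y) = y := by
    intro y hy
    have hw : f y ∈ f '' A := mem_image_of_mem f hy
    exact hi (hkmem _ hw) hy (hkeq _ hw)
  have hkc : ContinuousOn k (f '' A) := by
    rintro w ⟨y, hy, rfl⟩
    apply ContinuousAt.continuousWithinAt
    rw [ContinuousAt, hkg y hy]
    intro M hM
    obtain ⟨M', hM'M, hM'o, hyM'⟩ := _root_.mem_nhds_iff.1 hM
    have h1 : IsOpen (f '' (M' ∩ A)) := hopen _ inter_subset_right (hM'o.inter hA)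
    have h2 : f y ∈ f '' (M' ∩ A) := mem_image_of_mem f ⟨hyM', hy⟩
    rw [Filter.mem_map]
    filter_upwards [h1.mem_nhds h2] with v hv
    obtain ⟨x, hx, rfl⟩ := hv
    show k (f x) ∈ M
    rw [hkg x hx.2]
    exact hM'M hx.1
  intro w hw
  exact (Pool.Agent.H32.BT.diff_of_inverse ((hopen _ subset_rfl hA).mem_nhds hw) hkc hA
    (hkmem w hw) hf (fun v hv _ => hkeq v hv)).differentiableWithinAt

theorem rpull (hH : HW f P L N ρ) {z : ℂ} (hz : z ∈ L) {A S : Set ℂ} (hA : IsOpen A) (hAN : A ⊆ N) (hi : InjOn f A)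
    (hzA : z ∈ A) (hSc : IsCompact S) (hSA : S ⊆ A) {V₀ : Set ℂ} (hV₀ : Wn P V₀) (hzV : f z ∈ V₀)
    (hfN : frontier V₀ ⊆ N) :
    ∃ V : Set ℂ, RW P A V ∧ V ⊆ A ∧ z ∈ V ∧ (∀ w ∈ V, f w ∈ V₀) ∧
      ∫⁻ w in frontier V ∩ S, ρ w ∂(μH[1] : Measure ℂ) ≤ len ρ V₀ := by
  have hfA : DifferentiableOn ℂ f A := hH.fd.mono hAN
  obtain ⟨W, hW⟩ : ∃ W, W = A ∩ f ⁻¹' V₀ := ⟨_, rfl⟩
  have hWo : IsOpen W := hW ▸ hfA.continuousOn.isOpen_inter_preimage hA hV₀.op
  obtain ⟨V, hV⟩ : ∃ V, V = connectedComponentIn W z := ⟨_, rfl⟩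
  have hVo : IsOpen V := hV ▸ hWo.connectedComponentIn
  have hVW : V ⊆ W := hV ▸ connectedComponentIn_subset W z
  have hzW : z ∈ W := hW ▸ ⟨hzA, hzV⟩
  have hWA : W ⊆ A := hW ▸ inter_subset_left
  have hfr : ∀ w ∈ frontier V, w ∈ A → f w ∈ frontier V₀ := by
    intro w hw hwA
    rw [frontier, hV₀.op.interior_eq]
    constructor
    · have h1 : w ∈ closure V := frontier_subset_closure hw
      have h2 : ContinuousAt f w := (hfA.differentiableAt (hA.mem_nhds hwA)).continuousAt
      refine closure_mono ?_ (h2.continuousWithinAt.mem_closure_image h1)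
      rintro _ ⟨y, hy, rfl⟩
      have h3 := hVW hy
      rw [hW] at h3
      exact h3.2
    · intro hwV
      have h1 : w ∈ W := hW ▸ ⟨hwA, hwV⟩
      have h2 := comp_fr hWo z
      rw [← hV] at h2
      have h3 : w ∈ frontier V ∩ W := ⟨hw, h1⟩
      rw [h2] at h3
      exact h3
  refine ⟨V, ⟨hVo, hV ▸ isPreconnected_connectedComponentIn, ?_, ?_⟩, hVW.trans hWA,
    hV ▸ mem_connectedComponentIn hzW, fun w hw => ?_, ?_⟩
  · intro O hO hOb hOA hOf
    have hOA' : O ⊆ A := subset_closure.trans hOA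
    have h1 : f '' O ⊆ V₀ := by
      have hcl : IsCompact (closure O) := hOb.isCompact_closure
      have h2 : closure (f '' O) ⊆ f '' closure O :=
        closure_minimal (image_mono subset_closure) (hcl.image_of_continuousOn (hfA.continuousOn.mono hOA)).isClosed
      have h3 : IsOpen (f '' O) := inj_open hA hfA hi hOA' hO
      refine hV₀.fu (f '' O) h3 ?_ ?_
      · exact (hcl.image_of_continuousOn (hfA.continuousOn.mono hOA)).isBounded.subset (image_mono subset_closure)
      · intro u hu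
        rw [frontier, h3.interior_eq] at hu
        obtain ⟨y, hy, rfl⟩ := h2 hu.1
        have h4 : y ∈ frontier O := by
          rw [frontier, hO.interior_eq]
          exact ⟨hy, fun hyO => hu.2 (mem_image_of_mem f hyO)⟩
        have h5 := hVW (hOf h4)
        rw [hW] at h5
        exact h5.2
    have h2 : O ⊆ W := by
      intro o ho
      rw [hW]
      exact ⟨hOA' ho, h1 (mem_image_of_mem f ho)⟩
    rw [hV] at hOf ⊢
    exact comp_sub hO hOb h2 hOf
  · intro w hw hwA hwP
    exact Set.disjoint_left.1 hV₀.fr (hfr w hw hwA) (hH.Pf w hwP (hAN hwA))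
  · have h3 := hVW hw
    rw [hW] at h3
    exact h3.2
  · by_cases hlen : len ρ V₀ = ⊤
    · rw [hlen]
      exact le_top
    obtain ⟨T, hT⟩ : ∃ T, T = frontier V ∩ S := ⟨_, rfl⟩
    have hTA : T ⊆ A := hT ▸ inter_subset_right.trans hSA
    have hTc : IsCompact T := hT ▸ hSc.inter_left isClosed_frontier
    have hfT : f '' T ⊆ frontier V₀ := by
      rintro _ ⟨w, hw, rfl⟩
      rw [hT] at hw
      exact hfr w hw.1 (hSA hw.2)
    have hfTc : IsCompact (f '' T) := hTc.image_of_continuousOn (hfA.continuousOn.mono hTA)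
    -- finite measure
    have hfin : (μH[1] : Measure ℂ) (frontier V₀) < ⊤ := by
      obtain ⟨R, hR⟩ := hH.Nb.subset_closedBall (f z)
      obtain ⟨D, hD⟩ : ∃ D, D = max R 1 := ⟨_, rfl⟩
      have hD0 : 0 < D := hD ▸ lt_max_of_lt_right one_pos
      have hRD : R ≤ D := hD ▸ le_max_left _ _
      have h1 : ∀ w ∈ frontier V₀, ENNReal.ofReal (1 / D) ≤ ρ w := by
        intro w hw
        refine le_trans (ENNReal.ofReal_le_ofReal ?_) (hH.met.lo w (hfN hw))
        have hwP : w ∉ P := fun hp => Set.disjoint_left.1 hV₀.fr hw hp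
        have hfzP : f z ∈ P := hH.LP (hH.Lf z hz)
        have h0 : 0 < infDist w P := (hH.Pc.notMem_iff_infDist_pos ⟨f z, hfzP⟩).1 hwP
        have h2 : infDist w P ≤ dist w (f z) := infDist_le_dist_of_mem hfzP
        exact one_div_le_one_div_of_le h0 (h2.trans ((mem_closedBall.1 (hR (hfN hw))).trans hRD))
      have h2 : ENNReal.ofReal (1 / D) * (μH[1] : Measure ℂ) (frontier V₀) ≤ len ρ V₀ := by
        unfold len
        rw [← setLIntegral_const]
        exact setLIntegral_mono' isClosed_frontier.measurableSet h1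
      have h3 : ENNReal.ofReal (1 / D) ≠ 0 := by
        simpa using hD0
      exact ENNReal.lt_top_of_mul_ne_top_right (h2.trans_lt (lt_top_iff_ne_top.2 hlen)).ne h3
    obtain ⟨g, hg⟩ : ∃ g, g = Function.invFunOn f A := ⟨_, rfl⟩
    have hgd : DifferentiableOn ℂ g (f '' A) := hg ▸ inj_hol hA hfA hi
    have hgm : ∀ u ∈ f '' A, g u ∈ A ∧ f (g u) = u := fun u hu => by
      rw [hg]
      exact ⟨Function.invFunOn_mem hu, Function.invFunOn_eq hu⟩
    have hgf : ∀ y ∈ A, g (f y) = y := by
      intro y hy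
      obtain ⟨h1, h2⟩ := hgm (f y) (mem_image_of_mem f hy)
      exact hi h1 hy h2
    have hfAo : IsOpen (f '' A) := inj_open hA hfA hi subset_rfl hA
    have himg : g '' (f '' T) = T := by
      ext w
      constructor
      · rintro ⟨_, ⟨y, hy, rfl⟩, rfl⟩
        rw [hgf y (hTA hy)]
        exact hy
      · intro hw
        exact ⟨f w, mem_image_of_mem f hw, hgf w (hTA hw)⟩
    have h1 := lint_image hfAo hgd hfTc (image_mono hTA) ((measure_mono hfT).trans_lt hfin) ρ
    rw [himg] at h1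
    rw [← hT]
    refine h1.trans ?_
    refine le_trans ?_ (lintegral_mono_set hfT)
    refine setLIntegral_mono' hfTc.isClosed.measurableSet ?_
    intro w hw
    have hwA : w ∈ f '' A := image_mono hTA hw
    obtain ⟨hgw, hfg⟩ := hgm w hwA
    have h2 := hH.ct (g w) (hAN hgw)
    rw [hfg] at h2
    have hdf : HasDerivAt f (deriv f (g w)) (g w) :=
      (hfA.differentiableAt (hA.mem_nhds hgw)).hasDerivAt
    have hdg : HasDerivAt g (deriv g w) w :=
      (hgd.differentiableAt (hfAo.mem_nhds hwA)).hasDerivAt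
    have hcomp : HasDerivAt (f ∘ g) (deriv f (g w) * deriv g w) w := hdf.comp w hdg
    have hid : HasDerivAt (f ∘ g) 1 w := by
      refine (hasDerivAt_id w).congr_of_eventuallyEq ?_
      filter_upwards [hfAo.mem_nhds hwA] with u hu
      exact (hgm u hu).2
    have hmul : deriv f (g w) * deriv g w = 1 := hcomp.unique hid
    calc ρ (g w) * ENNReal.ofReal ‖deriv g w‖
        ≤ ρ w * ENNReal.ofReal ‖deriv f (g w)‖ * ENNReal.ofReal ‖deriv g w‖ := by gcongr
      _ = ρ w := by
          rw [mul_assoc, ← ENNReal.ofReal_mul (norm_nonneg _), ← norm_mul, hmul, norm_one,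
            ENNReal.ofReal_one, mul_one]

end Pool.Agent.H39.HO
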