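import Pool.Agent.H39.HO.CO
import Pool.Agent.H47.TH.Fil

/-!
# Small open sets without holes around compact sets without holes

`full_nhd`: a compact set without holes has arbitrarily small open neighbourhoods without holes. `full_of_compl`: compact
sets with connected complement have no holes. `col_nhd`: clopen pieces of `P` in small neighbourhoods of a component.
-/

set_option autoImplicit false

open Filter Topology Metric Set

namespace Pool.Agent.H39.HO

open Pool.Agent.H56.TH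

theorem fill_mono {Y Y' : Set ℂ} (h : Y ⊆ Y') : fill Y ⊆ fill Y' := by
  rintro w (hw | ⟨O, ⟨h1, h2, h3⟩, hw⟩)
  · exact Or.inl (h hw)
  · exact Or.inr ⟨O, ⟨h1, h2, h3.trans h⟩, hw⟩

/-- compact sets with connected complement have no holes -/
theorem full_of_compl {C : Set ℂ} (hC : IsCompact C) (hc : IsPreconnected Cᶜ) : Full C := by
  intro O hO hb hf
  obtain ⟨R, hR⟩ := (hb.union hC.isBounded).subset_closedBall 0
  -- a point off `C` and off `O`
  have hp : ∃ p : ℂ, p ∈ Cᶜ ∧ p ∉ closure O := by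
    obtain ⟨R', hR'⟩ := (hb.closure.union hC.isBounded).subset_ball 0
    have hne : (ball (0 : ℂ) R')ᶜ.Nonempty := by
      rw [Set.nonempty_compl]
      intro h
      have h2 : Bornology.IsBounded (Set.univ : Set ℂ) := by
        rw [← h]
        exact isBounded_ball
      exact NoncompactSpace.noncompact_univ (X := ℂ) (isCompact_of_isClosed_isBounded isClosed_univ h2)
    obtain ⟨p, hp⟩ := hne
    exact ⟨p, fun h => hp (hR' (Or.inr h)), fun h => hp (hR' (Or.inl h))⟩
  obtain ⟨p, hp1, hp2⟩ := hp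
  intro o ho
  by_contra hoC
  have hcov : Cᶜ ⊆ O ∪ (closure O)ᶜ := by
    intro w hw
    by_cases hwO : w ∈ O
    · exact Or.inl hwO
    · right
      intro hwc
      exact hw (hf (by rw [frontier, hO.interior_eq]; exact ⟨hwc, hwO⟩))
  obtain ⟨w, -, hw1, hw2⟩ := hc O (closure O)ᶜ hO isClosed_closure.isOpen_compl hcov ⟨o, hoC, ho⟩ ⟨p, hp1, hp2⟩
  exact hw2 (subset_closure hw1)

/-- small open sets without holes -/
theorem full_nhd {C W : Set ℂ} (hC : IsCompact C) (hF : Full C) (hW : IsOpen W) (hCW : C ⊆ W) :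
    ∃ A : Set ℂ, IsOpen A ∧ Full A ∧ C ⊆ A ∧ A ⊆ W ∧ Bornology.IsBounded A := by
  classical
  obtain ⟨R0, hR0⟩ := hC.isBounded.subset_ball (0 : ℂ)
  obtain ⟨R, hR⟩ : ∃ R, R = max R0 1 := ⟨_, rfl⟩
  have hRpos : 0 < R := hR ▸ lt_max_of_lt_right one_pos
  have hCR : C ⊆ ball 0 R := hR0.trans (ball_subset_ball (hR ▸ le_max_left _ _))
  obtain ⟨e0, he0, hthe0⟩ := hC.exists_thickening_subset_open isOpen_ball hCR
  obtain ⟨X, hX⟩ : ∃ X, X = closedBall (0 : ℂ) R \ (W ∩ ball 0 R) := ⟨_, rfl⟩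
  have hXc : IsCompact X := hX ▸ (isCompact_closedBall 0 R).diff (hW.inter isOpen_ball)
  have key : ∀ x ∈ X, ∃ e : ℝ, 0 < e ∧ e ≤ e0 ∧ ∀ x' ∈ ball x e, x' ∉ fill (thickening e C) := by
    intro x hx
    have hxC : x ∉ C := by
      intro h
      rw [hX] at hx
      exact hx.2 ⟨hCW h, hCR h⟩
    have hCo : IsOpen Cᶜ := hC.isClosed.isOpen_compl
    obtain ⟨U, hU⟩ : ∃ U, U = connectedComponentIn Cᶜ x := ⟨_, rfl⟩
    have hUo : IsOpen U := hU ▸ hCo.connectedComponentIn
    have hUC : U ⊆ Cᶜ := hU ▸ connectedComponentIn_subset _ _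
    have hxU : x ∈ U := hU ▸ mem_connectedComponentIn hxC
    have hUu : ¬ Bornology.IsBounded U := by
      intro hb
      have h1 : frontier U ⊆ C := by
        intro w hw
        by_contra hwC
        have h2 := comp_fr hCo x
        rw [← hU] at h2
        have h3 : w ∈ frontier U ∩ Cᶜ := ⟨hw, hwC⟩
        rw [h2] at h3
        exact h3
      exact hUC hxU (hF U hUo hb h1 hxU)
    obtain ⟨y, hyU, hyR⟩ : ∃ y ∈ U, y ∉ ball (0 : ℂ) R := by
      by_contra hcon
      push Not at hcon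
      exact hUu (isBounded_ball.subset hcon)
    have hUconn : IsConnected U := ⟨⟨x, hxU⟩, hU ▸ isPreconnected_connectedComponentIn⟩
    have hpath : IsPathConnected U := hUo.isConnected_iff_isPathConnected.1 hUconn
    obtain ⟨γ, hγ⟩ := hpath.joinedIn x hxU y hyU
    obtain ⟨Γ, hΓ⟩ : ∃ Γ, Γ = Set.range γ := ⟨_, rfl⟩
    have hΓc : IsCompact Γ := hΓ ▸ isCompact_range γ.continuous
    have hΓp : IsPreconnected Γ := hΓ ▸ isPreconnected_range γ.continuous
    have hΓU : Γ ⊆ U := by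
      rw [hΓ]
      rintro _ ⟨t, rfl⟩
      exact hγ t
    have hxΓ : x ∈ Γ := hΓ ▸ ⟨0, γ.source⟩
    have hyΓ : y ∈ Γ := hΓ ▸ ⟨1, γ.target⟩
    have hdis : Disjoint Γ C := Set.disjoint_left.2 fun w hw hwC => hUC (hΓU hw) hwC
    obtain ⟨e, he, hde⟩ := hdis.exists_thickenings hΓc hC.isClosed
    refine ⟨min e e0, lt_min he he0, min_le_right _ _, fun x' hx' hfx => ?_⟩
    obtain ⟨Y, hY⟩ : ∃ Y, Y = thickening (min e e0) C := ⟨_, rfl⟩
    rw [← hY] at hfx
    have hYR : Y ⊆ ball 0 R := hY ▸ (thickening_mono (min_le_right _ _) C).trans hthe0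
    have hYe : Disjoint (thickening e Γ) Y := hde.mono_right (hY ▸ thickening_mono (min_le_left _ _) C)
    have hbx : ball x (min e e0) ⊆ thickening e Γ := fun w hw =>
      mem_thickening_iff.2 ⟨x, hxΓ, (mem_ball.1 hw).trans_le (min_le_left _ _)⟩
    have hx'Y : x' ∉ Y := fun h => Set.disjoint_left.1 hYe (hbx hx') h
    rcases hfx with h | ⟨O, ⟨hO, hOb, hOf⟩, hx'O⟩
    · exact hx'Y h
    have hE := Pool.Agent.H47.TH.compl_ball_con (0 : ℂ) hRpos.le
    have h1 : IsPreconnected (ball x (min e e0) ∪ Γ) :=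
      IsPreconnected.union x (mem_ball_self (lt_min he he0)) hxΓ (convex_ball _ _).isPreconnected hΓp
    have h2 : IsPreconnected ((ball x (min e e0) ∪ Γ) ∪ (ball (0 : ℂ) R)ᶜ) :=
      IsPreconnected.union y (Or.inr hyΓ) hyR h1 hE.isPreconnected
    have h3 : ∀ w ∈ (ball x (min e e0) ∪ Γ) ∪ (ball (0 : ℂ) R)ᶜ, w ∉ Y := by
      rintro w ((hw | hw) | hw) hwY
      · exact Set.disjoint_left.1 hYe (hbx hw) hwY
      · exact Set.disjoint_left.1 hYe (self_subset_thickening he _ hw) hwY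
      · exact hw (hYR hwY)
    have h4 : (ball x (min e e0) ∪ Γ) ∪ (ball (0 : ℂ) R)ᶜ ⊆ O := by
      refine h2.subset_left_of_subset_union hO isClosed_closure.isOpen_compl
        (Set.disjoint_left.2 fun w hw hw' => hw' (subset_closure hw)) ?_ ⟨x', Or.inl (Or.inl hx'), hx'O⟩
      intro w hw
      by_cases hwO : w ∈ O
      · exact Or.inl hwO
      · right
        intro hwc
        exact h3 w hw (hOf (by rw [frontier, hO.interior_eq]; exact ⟨hwc, hwO⟩))
    exact Pool.Agent.H47.TH.compl_ball_unbdd (0 : ℂ) R (hOb.subset (subset_union_right.trans h4))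
  choose! e he he0' hball using key
  obtain ⟨t, htX, htc⟩ := hXc.elim_nhds_subcover (fun x => ball x (e x)) fun x hx => ball_mem_nhds x (he x hx)
  obtain ⟨ε, hε, hεe0, hεt⟩ : ∃ ε : ℝ, 0 < ε ∧ ε ≤ e0 ∧ ∀ x ∈ t, ε ≤ e x := by
    rcases t.eq_empty_or_nonempty with rfl | hne
    · exact ⟨e0, he0, le_rfl, fun x hx => absurd hx (Finset.notMem_empty x)⟩
    · obtain ⟨x0, hx0, hmin⟩ := t.exists_min_image e hne
      exact ⟨e x0, he x0 (htX x0 hx0), he0' x0 (htX x0 hx0), fun x hx => hmin x hx⟩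
  have hAb : fill (thickening ε C) ⊆ ball 0 R :=
    fill_sub ((thickening_mono hεe0 C).trans hthe0) (full_ball 0 R)
  refine ⟨fill (thickening ε C), fill_open isOpen_thickening, fill_full isOpen_thickening,
    (self_subset_thickening hε C).trans (sub_fill _), ?_, isBounded_ball.subset hAb⟩
  intro w hw
  by_contra hwW
  have hwX : w ∈ X := by
    rw [hX]
    exact ⟨ball_subset_closedBall (hAb hw), fun h => hwW h.1⟩
  obtain ⟨x, hx, hwx⟩ := mem_iUnion₂.1 (htc hwX)
  exact hball x (htX x hx) w hwx (fill_mono (thickening_mono (hεt x hx) C) hw)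

/-- clopen pieces -/
theorem col_nhd {P : Set ℂ} (hP : IsCompact P) {z : ℂ} (hz : z ∈ P) {W : Set ℂ} (hW : IsOpen W)
    (hCW : connectedComponentIn P z ⊆ W) :
    ∃ Q : Set ℂ, z ∈ Q ∧ Q ⊆ P ∧ Q ⊆ W ∧ IsCompact Q ∧ IsClosed (P \ Q) := by
  have : CompactSpace P := isCompact_iff_compactSpace.1 hP
  rw [connectedComponentIn_eq_image hz, connectedComponent_eq_iInter_isClopen] at hCW
  obtain ⟨x, hx⟩ : ∃ x : P, x = ⟨z, hz⟩ := ⟨_, rfl⟩
  rw [← hx] at hCW
  have hne : Nonempty {s : Set P // IsClopen s ∧ x ∈ s} := ⟨⟨univ, isClopen_univ, mem_univ _⟩⟩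
  obtain ⟨⟨V, hV, hzV⟩, hVκ⟩ := exists_subset_nhds_of_compactSpace
    (V := fun s : {s : Set P // IsClopen s ∧ x ∈ s} => (s : Set P))
    (fun s t => ⟨⟨s.1 ∩ t.1, s.2.1.inter t.2.1, s.2.2, t.2.2⟩, inter_subset_left, inter_subset_right⟩)
    (fun s => s.2.1.isClosed) (U := Subtype.val ⁻¹' W) (fun y hy => by
      have h1 : (y : ℂ) ∈ W := hCW (mem_image_of_mem _ hy)
      exact (hW.preimage continuous_subtype_val).mem_nhds h1)
  rw [hx] at hzV
  refine ⟨Subtype.val '' V, ⟨⟨z, hz⟩, hzV, rfl⟩, ?_, ?_, ?_, ?_⟩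
  · rintro _ ⟨x, -, rfl⟩
    exact x.2
  · rintro _ ⟨x, hx, rfl⟩
    exact hVκ hx
  · exact hV.isClosed.isCompact.image continuous_subtype_val
  · have h1 : P \ (Subtype.val '' V) = Subtype.val '' Vᶜ := by
      ext x
      constructor
      · rintro ⟨hx, hx2⟩
        exact ⟨⟨x, hx⟩, fun hxV => hx2 ⟨⟨x, hx⟩, hxV, rfl⟩, rfl⟩
      · rintro ⟨y, hy, rfl⟩
        refine ⟨y.2, ?_⟩
        rintro ⟨y', hy', he⟩
        rw [Subtype.ext he] at hy'
        exact hy hy'
    rw [h1]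
    exact (hV.compl.isClosed.isCompact.image continuous_subtype_val).isClosed

end Pool.Agent.H39.HO
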