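import Pool.Agent.H39.HO.S1
import Pool.Agent.H39.HO.FN
import Pool.Agent.H56.TH.MS

/-!
# THEOREM H without total disconnectedness, in the planar settings

`pt_fr`: in a frame; `pt_ps`: Julia set with a point off the components; `pt_ss`: Julia set = sphere. The components of
the post-critical set `P` at the points of `L` are points if `L ⊆ P` is compact, `f L ⊆ L`, and the component of `P` at
each point of `L` has no holes and a neighbourhood on which `f` is injective.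
-/

set_option autoImplicit false

open Filter Topology Metric Set MeasureTheory
open scoped MeasureTheory

namespace Pool.Agent.H39.HO

open Pool.Agent.H56.TH Pool.Agent.H56.UD Pool.Agent.H78.UX

variable {f : ℂ → ℂ} {U J P Cr : Set ℂ} {δ : ℝ} {η : ℂ → ℂ → ℂ} {ρ : ℝ}

/-- components of compact sets are compact -/
theorem cc_comp {P : Set ℂ} (hP : IsCompact P) {z : ℂ} (hz : z ∈ P) : IsCompact (connectedComponentIn P z) := by
  refine hP.of_isClosed_subset (isClosed_of_closure_subset ?_) (connectedComponentIn_subset P z)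
  exact isPreconnected_connectedComponentIn.closure.subset_connectedComponentIn
    (subset_closure (mem_connectedComponentIn hz))
    (closure_minimal (connectedComponentIn_subset P z) hP.isClosed)

/-- injective holomorphic functions have no critical points -/
theorem inj_der {A : Set ℂ} (hA : IsOpen A) (hf : DifferentiableOn ℂ f A) (hi : InjOn f A) {z : ℂ} (hz : z ∈ A) :
    deriv f z ≠ 0 := by
  have h1 := inj_hol hA hf hi
  have hfz : f z ∈ f '' A := mem_image_of_mem f hz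
  have hfAo : IsOpen (f '' A) := inj_open hA hf hi subset_rfl hA
  have hgz : Function.invFunOn f A (f z) = z :=
    hi (Function.invFunOn_mem hfz) hz (Function.invFunOn_eq hfz)
  have hdg : HasDerivAt (Function.invFunOn f A) (deriv (Function.invFunOn f A) (f z)) (f z) :=
    (h1.differentiableAt (hfAo.mem_nhds hfz)).hasDerivAt
  have hdf : HasDerivAt f (deriv f z) (Function.invFunOn f A (f z)) := by
    rw [hgz]
    exact (hf.differentiableAt (hA.mem_nhds hz)).hasDerivAt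
  have hcomp := hdf.comp (f z) hdg
  have hid : HasDerivAt (f ∘ Function.invFunOn f A) 1 (f z) := by
    refine (hasDerivAt_id (f z)).congr_of_eventuallyEq ?_
    filter_upwards [hfAo.mem_nhds hfz] with u hu
    exact Function.invFunOn_eq hu
  have hmul := hcomp.unique hid
  intro h0
  rw [h0, zero_mul] at hmul
  exact zero_ne_one hmul

theorem pt_fr (h : FR f U J P δ) {L : Set ℂ} (hL : IsCompact L) (hLP : L ⊆ P) (hLf : ∀ z ∈ L, f z ∈ L)
    (hC : ∀ z ∈ L, Full (connectedComponentIn P z))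
    (hi : ∀ z ∈ L, ∃ W : Set ℂ, IsOpen W ∧ connectedComponentIn P z ⊆ W ∧ InjOn f W)
    {W₀ : Set ℂ} (hW₀ : IsOpen W₀) (hCW : ∀ z ∈ L, connectedComponentIn P z ⊆ W₀)
    (hesc : ∀ N : Set ℂ, IsOpen N → Bornology.IsBounded N → N ⊆ U → N ⊆ thickening δ J → N ⊆ W₀ →
      ∀ O : Set ℂ, IsOpen O → O.Nonempty → ∃ j : ℕ, ∃ w ∈ O, f^[j] w ∉ N) {z : ℂ} (hz : z ∈ L) :
    connectedComponentIn P z = {z} := by
  have hPc : IsCompact P := h.Pc
  obtain ⟨R, hR⟩ := hPc.isBounded.subset_ball (0 : ℂ)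
  -- the region where everything is defined
  obtain ⟨G, hG⟩ : ∃ G, G = (U ∩ f ⁻¹' (thickening δ J)) ∩ (thickening δ J ∩ (W₀ ∩ ball 0 R)) := ⟨_, rfl⟩
  have hGo : IsOpen G := hG ▸ (h.fd.continuousOn.isOpen_inter_preimage h.Uo isOpen_thickening).inter
    (isOpen_thickening.inter (hW₀.inter isOpen_ball))
  have hCG : ∀ z ∈ L, connectedComponentIn P z ⊆ G := by
    intro z hz w hw
    have hwP := connectedComponentIn_subset P z hw
    rw [hG]
    exact ⟨⟨h.PU hwP, self_subset_thickening h.hδ J (h.PJ (h.Pf w hwP))⟩,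
      self_subset_thickening h.hδ J (h.PJ hwP), hCW z hz hw, hR hwP⟩
  have key : ∀ z ∈ L, ∃ A Q : Set ℂ, IsOpen A ∧ Full A ∧ A ⊆ G ∧ InjOn f A ∧ z ∈ Q ∧ Q ⊆ A ∧ Q ⊆ P ∧
      IsCompact Q ∧ IsClosed (P \ Q) := by
    intro z hz
    obtain ⟨W, hW1, hW2, hW3⟩ := hi z hz
    have hcc : IsCompact (connectedComponentIn P z) := cc_comp hPc (hLP hz)
    obtain ⟨A, hA1, hA2, hA3, hA4, -⟩ := full_nhd hcc (hC z hz) (hW1.inter hGo) (subset_inter hW2 (hCG z hz))
    obtain ⟨Q, hQ1, hQ2, hQ3, hQ4, hQ5⟩ := col_nhd hPc (hLP hz) hA1 hA3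
    exact ⟨A, Q, hA1, hA2, hA4.trans inter_subset_right, hW3.mono (hA4.trans inter_subset_left), hQ1, hQ3, hQ2, hQ4, hQ5⟩
  choose! A Q hA1 hA2 hA3 hA4 hQ1 hQ2 hQ3 hQ4 hQ5 using key
  obtain ⟨N, hN⟩ : ∃ N, N = ⋃ z ∈ L, A z := ⟨_, rfl⟩
  have hAN : ∀ z ∈ L, A z ⊆ N := fun z hz => hN ▸ subset_biUnion_of_mem hz
  have hNG : N ⊆ G := hN ▸ iUnion₂_subset hA3
  have hNo : IsOpen N := hN ▸ isOpen_biUnion hA1
  have hGU : G ⊆ U := by
    rw [hG]
    exact inter_subset_left.trans inter_subset_left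
  have hGJ : G ⊆ thickening δ J := by
    rw [hG]
    exact inter_subset_right.trans inter_subset_left
  have hGW : G ⊆ W₀ := by
    rw [hG]
    exact inter_subset_right.trans (inter_subset_right.trans inter_subset_left)
  have hGb : Bornology.IsBounded G := by
    rw [hG]
    exact isBounded_ball.subset (inter_subset_right.trans (inter_subset_right.trans inter_subset_right))
  have hH : HW f P L N (rh f U J P δ) :=
    { No := hNo
      Nb := hGb.subset hNG
      Pc := hPc.isClosed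
      Lc := hL
      LP := hLP
      Lf := hLf
      Pf := fun z hz _ => h.Pf z hz
      fd := h.fd.mono (hNG.trans hGU)
      ch := fun z hz => ⟨A z, Q z, hA1 z hz, hA2 z hz, hAN z hz, hA4 z hz, hQ1 z hz, hQ2 z hz, hQ3 z hz, hQ4 z hz,
        hQ5 z hz⟩
      met :=
        { lo := fun w hw => rh_lo (hGJ (hNG hw))
          up := fun w d hd hw hwP => rh_up h hd (hw.trans (hNG.trans hGJ)) hwP }
      ct := by
        intro w hw
        have hwG := hNG hw
        have hd : deriv f w ≠ 0 := by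
          rw [hN] at hw
          obtain ⟨z, hz, hwz⟩ := mem_iUnion₂.1 hw
          exact inj_der (hA1 z hz) (h.fd.mono ((hA3 z hz).trans hGU)) (hA4 z hz) hwz
        rw [hG] at hwG
        exact rh_ct h hwG.1.1 hwG.1.2 hd
      esc := hesc N hNo (hGb.subset hNG) (hNG.trans hGU) (hNG.trans hGJ) (hNG.trans hGW) }
  exact rpt hH hz

/-- the planar setting -/
theorem pt_ps (h : PS f U J P Cr δ η ρ)
    (hesc : ∀ z ∈ thickening δ J, z ∉ J → ∃ k : ℕ, z ∉ dm f U J δ k)
    {L : Set ℂ} (hL : IsCompact L) (hLP : L ⊆ P) (hLf : ∀ z ∈ L, f z ∈ L)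
    (hC : ∀ z ∈ L, Full (connectedComponentIn P z))
    (hi : ∀ z ∈ L, ∃ W : Set ℂ, IsOpen W ∧ connectedComponentIn P z ⊆ W ∧ InjOn f W)
    {c : ℂ} (hc : c ∈ J) (hcC : ∀ z ∈ L, c ∉ connectedComponentIn P z) {z : ℂ} (hz : z ∈ L) :
    connectedComponentIn P z = {z} := by
  refine pt_fr (fr_ps h) hL hLP hLf hC hi (W₀ := {c}ᶜ) isOpen_compl_singleton
    (fun z hz w hw hwc => hcC z hz (by rw [mem_singleton_iff.1 hwc] at hw; exact hw)) ?_ hz
  intro N hN hNb hNU hNJ hNc O hO hOn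
  by_contra hcon
  push Not at hcon
  by_cases hOJ : (O ∩ J).Nonempty
  · obtain ⟨M, hM⟩ := h.leo O hO hOJ
    obtain ⟨w, hw, hwc⟩ := hM M le_rfl hc
    have h1 := hNc (hcon M w hw.1)
    rw [hwc] at h1
    exact h1 rfl
  · obtain ⟨x, hx⟩ := hOn
    have hxJ : x ∉ J := fun hxJ => hOJ ⟨x, hx, hxJ⟩
    obtain ⟨k, hk⟩ := hesc x (hNJ (hcon 0 x hx)) hxJ
    exact hk ⟨fun j _ => hNU (hcon j x hx), hNJ (hcon k x hx)⟩

/-- Julia set = sphere -/
theorem pt_ss (h : SS f U P Cr δ η ρ) {L : Set ℂ} (hL : IsCompact L) (hLP : L ⊆ P) (hLf : ∀ z ∈ L, f z ∈ L)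
    (hC : ∀ z ∈ L, Full (connectedComponentIn P z))
    (hi : ∀ z ∈ L, ∃ W : Set ℂ, IsOpen W ∧ connectedComponentIn P z ⊆ W ∧ InjOn f W) {z : ℂ} (hz : z ∈ L) :
    connectedComponentIn P z = {z} := by
  refine pt_fr (fr_ss h) hL hLP hLf hC hi (W₀ := univ) isOpen_univ (fun _ _ => subset_univ _) ?_ hz
  intro N hN hNb hNU hNJ hNc O hO hOn
  obtain ⟨R0, hR0⟩ := hNb.exists_norm_le
  obtain ⟨R, hR⟩ : ∃ R, R = max R0 0 := ⟨_, rfl⟩
  have hRn : 0 ≤ R := hR ▸ le_max_right _ _
  obtain ⟨M, hM⟩ := h.leo O hO hOn (R + 2)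
  have h1 : ((R + 1 : ℝ) : ℂ) ∈ ball (0 : ℂ) (R + 2) := by
    rw [mem_ball_zero_iff, Complex.norm_real, Real.norm_of_nonneg (by positivity)]
    linarith
  obtain ⟨w, hw, hwe⟩ := hM M le_rfl h1
  refine ⟨M, w, hw.1, fun hcon => ?_⟩
  rw [hwe] at hcon
  have h2 := hR0 _ hcon
  rw [Complex.norm_real, Real.norm_of_nonneg (by positivity)] at h2
  have h3 : R0 ≤ R := hR ▸ le_max_left _ _
  linarith

end Pool.Agent.H39.HO
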