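import Pool.Agent.H39.HO.BN
import Pool.Agent.H44.TH.BS

/-!
# THEOREM H without total disconnectedness, on the sphere, all Julia sets and families

`exo_all`: `EXO` for all maps which are not limits of maps with more attracted critical points. `NFS f`: every nonempty
closed subset of the post-critical set which is mapped into itself meets a component of the post-critical set which
separates the sphere or has no neighbourhood on which `f` is injective. `nfs_all`: all families.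
-/

set_option autoImplicit false

open Filter Topology Polynomial Metric Set MeasureTheory

namespace Pool.Agent.H39.HO

open Pool.Agent.H44.Fatou (rat rat_continuous rat_coe rat_coe_of_ne pt crit_coe)
open Pool.Agent.H56.HR (FS EqAt)
open Pool.Agent.H32.BT Pool.Agent.H79.Eul Pool.Agent.H79.Par
open Pool.Agent.H35.EX Pool.Agent.H44.RR Pool.Agent.H44.RC Pool.Agent.H47.RJ
open Pool.Agent.H47.NM Pool.Agent.H47.NN Pool.Agent.H44.ND Pool.Agent.H79.ES Pool.Agent.H44.RG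
open Pool.Agent.H44.CP Pool.Agent.H47.PS Pool.Agent.H64.NC Pool.Agent.H57.CF
open Pool.Agent.H61.TT (gg dg ww RatD)
open Pool.Agent.H64.JS (KJ kj_inv it_mem)
open Pool.Agent.H66.IL (em)
open Pool.Agent.H66.UX (PCs Pq rz_ex r1 UP CrS pw_crit)
open Pool.Agent.H78.UX (em_hom kj_img)
open Pool.Agent.H44.TH (EXH NFC th_all free)

variable {d : ℕ}

/-- components and conjugacies -/
theorem cc_conj {φ : OnePoint ℂ ≃ₜ OnePoint ℂ} {f g : OnePoint ℂ → OnePoint ℂ} (conj : ∀ x, g (φ x) = φ (f x))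
    {x : OnePoint ℂ} (hx : x ∈ KJ {c | IsCrit f c} (JS f) f) :
    connectedComponentIn (KJ {c | IsCrit g c} (JS g) g) (φ x) =
      φ '' connectedComponentIn (KJ {c | IsCrit f c} (JS f) f) x := by
  rw [φ.image_connectedComponentIn hx]
  congr 1
  ext y
  obtain ⟨x', rfl⟩ := φ.surjective y
  rw [kj_img conj x']
  constructor
  · exact fun h => ⟨x', h, rfl⟩
  · rintro ⟨x'', h, he⟩
    rwa [← φ.injective he]

/-- `EXO` and conjugacies -/
theorem exo_conj {φ : OnePoint ℂ ≃ₜ OnePoint ℂ} {f g : OnePoint ℂ → OnePoint ℂ}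
    (conj : ∀ x, g (φ x) = φ (f x)) (h : EXO g) : EXO f := by
  intro L hL hLc hLf hsep hinj x hx
  have h1 := h (φ '' L) (by
      rintro _ ⟨x, hx, rfl⟩
      exact (kj_img conj x).2 (hL hx)) (φ.isClosedMap _ hLc) (by
      rintro _ ⟨x, hx, rfl⟩
      rw [conj]
      exact ⟨f x, hLf x hx, rfl⟩) (by
      rintro _ ⟨x, hx, rfl⟩
      rw [cc_conj conj (hL hx), ← image_compl_eq φ.bijective]
      exact (hsep x hx).image φ φ.continuous.continuousOn) (by
      rintro _ ⟨x, hx, rfl⟩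
      rw [cc_conj conj (hL hx)]
      obtain ⟨V, hV, hVi⟩ := hinj x hx
      obtain ⟨V', hV'o, hCV', hV'V⟩ := mem_nhdsSet_iff_exists.1 hV
      refine ⟨φ '' V', mem_nhdsSet_iff_exists.2 ⟨φ '' V', φ.isOpenMap _ hV'o, image_mono hCV', subset_rfl⟩, ?_⟩
      rintro _ ⟨a, ha, rfl⟩ _ ⟨b, hb, rfl⟩ hab
      rw [conj, conj] at hab
      rw [hVi (hV'V ha) (hV'V hb) (φ.injective hab)]) (φ x) (mem_image_of_mem φ hx)
  rw [cc_conj conj (hL hx), ← image_singleton] at h1
  exact φ.injective.image_injective h1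

/-- injectivity of the iterates near the components -/
theorem inj_it {f : OnePoint ℂ → OnePoint ℂ} (hf : Continuous f) {K L : Set (OnePoint ℂ)}
    (hKf : ∀ x ∈ K, f x ∈ K) (hLK : L ⊆ K) (hLf : ∀ x ∈ L, f x ∈ L)
    (hinj : ∀ x ∈ L, ∃ V ∈ 𝓝ˢ (connectedComponentIn K x), InjOn f V) (n : ℕ) :
    ∀ x ∈ L, ∃ V ∈ 𝓝ˢ (connectedComponentIn K x), InjOn f^[n] V := by
  induction n with
  | zero => exact fun x _ => ⟨univ, univ_mem, fun a _ b _ h => h⟩
  | succ n ih =>
    intro x hx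
    obtain ⟨V, hV, hVi⟩ := hinj x hx
    obtain ⟨W, hW, hWi⟩ := ih (f x) (hLf x hx)
    obtain ⟨W', hW'o, hCW', hW'W⟩ := mem_nhdsSet_iff_exists.1 hW
    have h1 : f '' connectedComponentIn K x ⊆ connectedComponentIn K (f x) :=
      (isPreconnected_connectedComponentIn.image f hf.continuousOn).subset_connectedComponentIn
        ⟨x, mem_connectedComponentIn (hLK hx), rfl⟩ (by
          rintro _ ⟨y, hy, rfl⟩
          exact hKf y (connectedComponentIn_subset K x hy))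
    refine ⟨V ∩ f ⁻¹' W', inter_mem hV (mem_nhdsSet_iff_exists.2 ⟨f ⁻¹' W', hW'o.preimage hf, ?_, subset_rfl⟩), ?_⟩
    · intro y hy
      exact hCW' (h1 (mem_image_of_mem f hy))
    · rintro a ⟨ha, ha'⟩ b ⟨hb, hb'⟩ hab
      rw [Function.iterate_succ_apply, Function.iterate_succ_apply] at hab
      exact hVi ha hb (hWi (hW'W ha') (hW'W hb') hab)

/-- three fixed points `0`, `1`, `∞` -/
theorem exo_one {v : E d} (hd : 2 ≤ d) (hcop : IsCoprime (pol v.1) (pol v.2))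
    (hdeg : max (pol v.1).natDegree (pol v.2).natDegree = d) (hup : ¬ Up v) (hJ : JS (Rf v) = univ)
    (h0 : Rf v ((0 : ℂ) : OnePoint ℂ) = ((0 : ℂ) : OnePoint ℂ))
    (h1 : Rf v ((1 : ℂ) : OnePoint ℂ) = ((1 : ℂ) : OnePoint ℂ)) (hi : Rf v OnePoint.infty = OnePoint.infty) :
    EXO (Rf v) := by
  intro L hL hLc hLf hsep hinj x0 hx0
  obtain ⟨-, c, hc, hcJ, -⟩ := closure_nonempty_iff.1 (⟨x0, hL hx0⟩ : (KJ {c | IsCrit (Rf v) c} (JS (Rf v)) (Rf v)).Nonempty)
  have hcont : Continuous (Rf v) := rat_continuous hcop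
  have hcl : IsClosed (PCs v) := isClosed_closure
  have hLP : L ⊆ PCs v := hL
  have hne : ((PCs v)ᶜ).Nonempty := by
    rw [nonempty_compl]
    intro h2
    have h4 : KJ {c | IsCrit (Rf v) c} (JS (Rf v)) (Rf v) = univ := h2
    obtain ⟨V, hV, hVi⟩ := hinj x0 hx0
    rw [h4, connectedComponentIn_univ, PreconnectedSpace.connectedComponent_eq_univ] at hV
    exact hc ⟨V, nhds_le_nhdsSet (mem_univ c) hV, hVi⟩
  -- a periodic point outside the postcritical set
  obtain ⟨q, N, hN, hq, hqP⟩ : ∃ (q : ℂ) (N : ℕ), 1 ≤ N ∧ (Rf v)^[N] (q : OnePoint ℂ) = (q : OnePoint ℂ) ∧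
      (q : OnePoint ℂ) ∉ PCs v := by
    obtain ⟨z, hz⟩ : ∃ z : ℂ, (z : OnePoint ℂ) ∈ (PCs v)ᶜ := by
      obtain ⟨y, hy, z, rfl⟩ := OnePoint.denseRange_coe.inter_open_nonempty _ hcl.isOpen_compl hne
      exact ⟨z, hy⟩
    have hV : (PCs v)ᶜ ∩ {OnePoint.infty}ᶜ ∈ 𝓝 (z : OnePoint ℂ) :=
      (hcl.isOpen_compl.inter isClosed_singleton.isOpen_compl).mem_nhds ⟨hz, OnePoint.coe_ne_infty z⟩
    obtain ⟨p, ⟨hp1, hp2⟩, N, hN, hp⟩ := Pool.Agent.H44.NR.per_dense hd hcop hdeg (hJ ▸ mem_univ (z : OnePoint ℂ)) hV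
    obtain ⟨q, hq⟩ := OnePoint.ne_infty_iff_exists.1 hp2
    refine ⟨q, N, hN, ?_, ?_⟩
    · rw [hq]
      exact hp
    · rw [hq]
      exact hp1
  obtain ⟨A, B, hRZ, he⟩ := rz_ex hd hcop hdeg hup hJ h0 h1 hi hN hq hqP
  obtain ⟨φ, K, hK, bil, hφ⟩ := em_hom hd q
  obtain ⟨η, ρ, hS⟩ := r1 hRZ one_pos
  -- the chart map
  obtain ⟨e, hee⟩ : ∃ e : ℂ → OnePoint ℂ, e = fun w : ℂ => φ.symm (w : OnePoint ℂ) := ⟨_, rfl⟩
  have hemb : IsOpenEmbedding e := hee ▸ φ.symm.isOpenEmbedding.comp OnePoint.isOpenEmbedding_coe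
  have hea : ∀ w : ℂ, e w = em q w := fun w => by rw [hee]; exact hφ w
  have hφe : ∀ w : ℂ, φ (e w) = (w : OnePoint ℂ) := fun w => by rw [hee]; exact φ.apply_symm_apply _
  have hec : Continuous e := hemb.continuous
  have hemq : ∀ w : ℂ, em q w ≠ (q : OnePoint ℂ) := by
    intro w h3
    unfold Pool.Agent.H66.IL.em at h3
    by_cases hw : w = 0
    · rw [if_pos hw] at h3
      exact OnePoint.infty_ne_coe _ h3
    · rw [if_neg hw] at h3
      have h4 := OnePoint.coe_injective h3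
      rw [add_eq_left, one_div, inv_eq_zero] at h4
      exact hw h4
  have hφq : φ (q : OnePoint ℂ) = OnePoint.infty := by
    by_contra h3
    obtain ⟨w, hw⟩ := OnePoint.ne_infty_iff_exists.1 h3
    refine hemq w ?_
    rw [← hea, hee]
    show φ.symm (w : OnePoint ℂ) = (q : OnePoint ℂ)
    rw [hw, φ.symm_apply_apply]
  have hpr : φ.symm OnePoint.infty ∉ range e := by
    rintro ⟨w, hw⟩
    have h3 := congrArg φ hw
    rw [hφe, φ.apply_symm_apply] at h3
    exact OnePoint.coe_ne_infty w h3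
  have heq : ∀ w ∈ UP B, (Rf v)^[N] (e w) = e (gg A B w) := by
    intro w hw
    rw [hea, hea]
    exact he w hw
  have hPQ : ∀ z : ℂ, z ∈ Pq v q ↔ e z ∈ KJ {c | IsCrit (Rf v) c} (JS (Rf v)) (Rf v) := by
    intro z
    rw [hea]
    exact Iff.rfl
  have hKJ : ∀ x ∈ KJ {c | IsCrit (Rf v) c} (JS (Rf v)) (Rf v), x ∈ range e := by
    intro x hx
    have h2 : φ x ≠ OnePoint.infty := by
      intro h3
      rw [← hφq] at h3
      exact hqP (φ.injective h3 ▸ hx)
    obtain ⟨z, hz⟩ := OnePoint.ne_infty_iff_exists.1 h2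
    refine ⟨z, ?_⟩
    apply φ.injective
    rw [hφe, hz]
  obtain ⟨L', hL'⟩ : ∃ L' : Set ℂ, L' = e ⁻¹' L := ⟨_, rfl⟩
  have hL'm : ∀ z, z ∈ L' ↔ e z ∈ L := fun z => by rw [hL']; rfl
  have hL'P : L' ⊆ Pq v q := fun z hz => (hPQ z).2 (hL ((hL'm z).1 hz))
  have hL'c : IsCompact L' := by
    refine hRZ.Pc.of_isClosed_subset ?_ hL'P
    rw [hL']
    exact hLc.preimage hec
  have hPU : Pq v q ⊆ UP B := fun z hz => hRZ.Pb z hz
  have hLit : ∀ n : ℕ, ∀ x ∈ L, (Rf v)^[n] x ∈ L := fun n x hx => it_mem hLf hx n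
  have hL'f : ∀ z ∈ L', gg A B z ∈ L' := by
    intro z hz
    rw [hL'm, ← heq z (hPU (hL'P hz))]
    exact hLit N _ ((hL'm z).1 hz)
  have hcc : ∀ z ∈ L', connectedComponentIn (KJ {c | IsCrit (Rf v) c} (JS (Rf v)) (Rf v)) (e z) =
      e '' connectedComponentIn (Pq v q) z :=
    fun z hz => comp_ch hemb hPQ hKJ (hL'P hz)
  obtain ⟨z0, rfl⟩ := hKJ x0 (hL hx0)
  have hz0 : z0 ∈ L' := (hL'm z0).2 hx0
  have hfin := pt_ss hS hL'c hL'P hL'f
    (fun z hz => full_of_sph hemb hpr (by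
      rw [← hcc z hz]
      exact hsep _ ((hL'm z).1 hz)))
    (fun z hz => inj_ch hemb hS.Uo ((connectedComponentIn_subset _ z).trans hPU) heq (by
      rw [← hcc z hz]
      exact inj_it hcont (kj_inv hcont) hL hLf hinj N _ ((hL'm z).1 hz))) hz0
  rw [hcc z0 hz0, hfin, image_singleton]

/-- Julia set = sphere -/
theorem exo_sph {v : E d} (hd : 2 ≤ d) (hcop : IsCoprime (pol v.1) (pol v.2))
    (hdeg : max (pol v.1).natDegree (pol v.2).natDegree = d) (hup : ¬ Up v) (hJ : JS (Rf v) = univ) : EXO (Rf v) := by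
  obtain ⟨q1, q2, q3, n12, n13, n23, e1, e2, e3⟩ := three_fix hd hcop hdeg hup hJ
  obtain ⟨L, G, φ, K, hch, -, f0, f1, fi⟩ := ch_three (d := d) hd n12 n13 n23
  obtain ⟨hcop1, hdeg1, hφ⟩ := hch.conj v hcop hdeg
  have hup1 : ¬ Up (L v) := fun h =>
    hup (up_chart hd hch.cG hch.invL hch.invR (fun v h3 h4 => (hch.conj v h3 h4).2.2) hcop hdeg h)
  have hJS1 : JS (Rf (L v)) = univ := by
    rw [eq_univ_iff_forall]
    intro y
    obtain ⟨x, rfl⟩ := φ.surjective y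
    exact (js_conj φ (fun y => (hφ y).symm) x).2 (hJ ▸ mem_univ x)
  have h0 : Rf (L v) ((0 : ℂ) : OnePoint ℂ) = ((0 : ℂ) : OnePoint ℂ) := by rw [← f0, hφ, e1]
  have h1 : Rf (L v) ((1 : ℂ) : OnePoint ℂ) = ((1 : ℂ) : OnePoint ℂ) := by rw [← f1, hφ, e2]
  have hi : Rf (L v) OnePoint.infty = OnePoint.infty := by rw [← fi, hφ, e3]
  exact exo_conj hφ (exo_one hd hcop1 hdeg1 hup1 hJS1 h0 h1 hi)

/-- all families -/
theorem exo_all {m : ℕ} (hd : 2 ≤ d) (hm : m ≤ d) {x : Em d m} (hcop : IsCoprime (pol x.1) (pol x.2))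
    (hdeg : max (pol x.1).natDegree (pol x.2).natDegree = d) (hup : ¬ UpF d m x) : EXO (Rf (ex d m x)) := by
  by_cases hJ : JS (Rf (ex d m x)) = univ
  · rcases Nat.lt_or_ge m 2 with h2 | h2
    · have hup1 : ¬ Up (ex d m x) := by
        rcases Nat.lt_or_ge m 1 with h1 | h1
        · obtain rfl : m = 0 := by omega
          exact fun h => hup (up_zero h)
        · obtain rfl : m = 1 := by omega
          exact fun h => hup (Pool.Agent.H64.PF.up_one hd hcop hdeg h)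
      exact exo_sph hd (ex_cop hcop) (ex_deg hdeg) hup1 hJ
    · exfalso
      obtain ⟨D, u, φ, K, T, h, -⟩ := Pool.Agent.H31.UDC.cdx_upF hd h2 hm hcop hdeg hup
      obtain ⟨y, hy⟩ := φ.surjective OnePoint.infty
      have h3 : φ y ∈ JS (Rf u) := (js_conj φ (fun y => (h.conj y).symm) y).2 (hJ ▸ mem_univ y)
      rw [hy] at h3
      exact h3 h.ga.fi
  · have hF : (FS (Rf (ex d m x))).Nonempty := by
      by_contra h1
      refine hJ ?_
      show (FS (Rf (ex d m x)))ᶜ = univ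
      rw [Set.not_nonempty_iff_eq_empty.1 h1, Set.compl_empty]
    obtain ⟨D, u, φ, K, T, h, -⟩ := Pool.Agent.H31.UDC.cdx hd hm hcop hdeg hup hF
    exact exo_cd h

/-- every nonempty closed subset of the post-critical set which is mapped into itself meets a component of the
post-critical set which separates the sphere or has no neighbourhood on which `f` is injective -/
def NFS (f : OnePoint ℂ → OnePoint ℂ) : Prop :=
  ∀ L ⊆ KJ {c | IsCrit f c} (JS f) f, IsClosed L → L.Nonempty → (∀ x ∈ L, f x ∈ L) →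
    ∃ x ∈ L, ¬ IsPreconnected (connectedComponentIn (KJ {c | IsCrit f c} (JS f) f) x)ᶜ ∨
      ∀ V ∈ 𝓝ˢ (connectedComponentIn (KJ {c | IsCrit f c} (JS f) f) x), ¬ InjOn f V

theorem nfs_of {f : OnePoint ℂ → OnePoint ℂ} (h1 : EXO f) (h2 : NFC f) : NFS f := by
  intro L hL hLc hLn hLf
  by_contra hcon
  push Not at hcon
  have h3 := h1 L hL hLc hLf (fun x hx => (hcon x hx).1) (fun x hx => (hcon x hx).2)
  rcases h2 L hL hLc hLn hLf with ⟨c, hc, hcr⟩ | ⟨x, hx, hne⟩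
  · obtain ⟨V, hV, hVi⟩ := (hcon c hc).2
    exact hcr ⟨V, nhds_le_nhdsSet (mem_connectedComponentIn (hL hc)) hV, hVi⟩
  · exact hne (h3 x hx)

/-- CLAUSE (f) for all families -/
theorem nfs_all {m : ℕ} (hd : 2 ≤ d) (hm : m ≤ d) {x : Em d m} (hcop : IsCoprime (pol x.1) (pol x.2))
    (hdeg : max (pol x.1).natDegree (pol x.2).natDegree = d) (hup : ¬ UpF d m x) : NFS (Rf (ex d m x)) :=
  nfs_of (exo_all hd hm hcop hdeg hup) (Pool.Agent.H44.TH.nfc_all hd hm hcop hdeg hup)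

end Pool.Agent.H39.HO
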