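import Pool.Agent.H39.HO.MR
import Pool.Agent.H44.TH.BN

/-!
# THEOREM H without total disconnectedness, on the sphere (Julia set not the sphere)

`EXO f`: the components of the post-critical set at the points of `L` are points, if `L` is closed, mapped into itself,
and these components do not separate the sphere and have neighbourhoods on which `f` is injective. `exo_cd`: in a chart.
-/

set_option autoImplicit false

open Filter Topology Polynomial Metric Set MeasureTheory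

namespace Pool.Agent.H39.HO

open Pool.Agent.H44.Fatou (rat rat_continuous rat_coe rat_coe_of_ne pt crit_coe)
open Pool.Agent.H32.BT Pool.Agent.H79.Eul Pool.Agent.H79.Par
open Pool.Agent.H35.EX Pool.Agent.H56.HR Pool.Agent.H44.RC Pool.Agent.H47.RJ
open Pool.Agent.H47.NN Pool.Agent.H44.ND Pool.Agent.H79.ES Pool.Agent.H47.NM Pool.Agent.H57.CF
open Pool.Agent.H64.NC Pool.Agent.H61.TT Pool.Agent.H57.CP Pool.Agent.H3.NC
open Pool.Agent.H18.UP (NJ PJ Cr Geo CU ps_conj ps_pj)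
open Pool.Agent.H27.BR
open Pool.Agent.H64.JS (KJ)
open Pool.Agent.H56.TH (Full ps_he)

/-- `EXO f` -/
def EXO (f : OnePoint ℂ → OnePoint ℂ) : Prop :=
  ∀ L ⊆ KJ {c | IsCrit f c} (JS f) f, IsClosed L → (∀ x ∈ L, f x ∈ L) →
    (∀ x ∈ L, IsPreconnected (connectedComponentIn (KJ {c | IsCrit f c} (JS f) f) x)ᶜ) →
    (∀ x ∈ L, ∃ V ∈ 𝓝ˢ (connectedComponentIn (KJ {c | IsCrit f c} (JS f) f) x), InjOn f V) →
    ∀ x ∈ L, connectedComponentIn (KJ {c | IsCrit f c} (JS f) f) x = {x}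

/-- no holes from the complement on the sphere -/
theorem full_of_sph {e : ℂ → OnePoint ℂ} (he : IsOpenEmbedding e) {C : Set ℂ}
    {p : OnePoint ℂ} (hp : p ∉ range e) (h : IsPreconnected (e '' C)ᶜ) : Full C := by
  intro O hO hb hf o ho
  by_contra hoC
  have hcl : IsClosed (e '' closure O) := (hb.isCompact_closure.image he.continuous).isClosed
  have hcov : (e '' C)ᶜ ⊆ (e '' O) ∪ (e '' closure O)ᶜ := by
    intro y hy
    by_cases h1 : y ∈ e '' O
    · exact Or.inl h1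
    · right
      rintro ⟨w, hw, rfl⟩
      have hwO : w ∉ O := fun h2 => h1 (mem_image_of_mem e h2)
      exact hy (mem_image_of_mem e (hf (by rw [frontier, hO.interior_eq]; exact ⟨hw, hwO⟩)))
  have hpC : p ∈ (e '' C)ᶜ := fun ⟨w, _, hw⟩ => hp ⟨w, hw⟩
  have hpO : p ∈ (e '' closure O)ᶜ := fun ⟨w, _, hw⟩ => hp ⟨w, hw⟩
  have hoC' : e o ∈ (e '' C)ᶜ := by
    rintro ⟨w, hw, hwe⟩
    rw [he.injective hwe] at hw
    exact hoC hw
  obtain ⟨y, -, hy1, hy2⟩ := h (e '' O) (e '' closure O)ᶜ (he.isOpenMap O hO) hcl.isOpen_compl hcov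
    ⟨e o, hoC', mem_image_of_mem e ho⟩ ⟨p, hpC, hpO⟩
  exact hy2 (image_mono subset_closure hy1)

/-- components in a chart -/
theorem comp_ch {e : ℂ → OnePoint ℂ} (he : IsOpenEmbedding e) {P : Set ℂ} {Q : Set (OnePoint ℂ)}
    (hPQ : ∀ z : ℂ, z ∈ P ↔ e z ∈ Q) (hQ : Q ⊆ range e) {z : ℂ} (hz : z ∈ P) :
    connectedComponentIn Q (e z) = e '' connectedComponentIn P z := by
  have hez : e z ∈ Q := (hPQ z).1 hz
  refine Subset.antisymm ?_ ?_
  · intro y hy
    have h1 : connectedComponentIn Q (e z) ⊆ range e := (connectedComponentIn_subset Q (e z)).trans hQ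
    obtain ⟨w, rfl⟩ := h1 hy
    have h2 : IsPreconnected (e ⁻¹' connectedComponentIn Q (e z)) :=
      isPreconnected_connectedComponentIn.preimage_of_isOpenMap he.injective he.isOpenMap h1
    have h3 : e ⁻¹' connectedComponentIn Q (e z) ⊆ connectedComponentIn P z :=
      h2.subset_connectedComponentIn (mem_connectedComponentIn hez)
        (fun u hu => (hPQ u).2 (connectedComponentIn_subset Q (e z) hu))
    exact ⟨w, h3 hy, rfl⟩
  · refine (isPreconnected_connectedComponentIn.image e he.continuous.continuousOn).subset_connectedComponentIn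
      ⟨z, mem_connectedComponentIn hz, rfl⟩ ?_
    rintro _ ⟨y, hy, rfl⟩
    exact (hPQ y).1 (connectedComponentIn_subset _ _ hy)

/-- injectivity in a chart -/
theorem inj_ch {e : ℂ → OnePoint ℂ} (he : IsOpenEmbedding e) {F : OnePoint ℂ → OnePoint ℂ} {g : ℂ → ℂ} {U C : Set ℂ}
    (hU : IsOpen U) (hCU : C ⊆ U) (heq : ∀ w ∈ U, F (e w) = e (g w)) (h : ∃ V ∈ 𝓝ˢ (e '' C), InjOn F V) :
    ∃ W : Set ℂ, IsOpen W ∧ C ⊆ W ∧ InjOn g W := by
  obtain ⟨V, hV, hVi⟩ := h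
  obtain ⟨V', hV'o, hCV', hV'V⟩ := mem_nhdsSet_iff_exists.1 hV
  refine ⟨e ⁻¹' V' ∩ U, (hV'o.preimage he.continuous).inter hU, fun w hw => ⟨hCV' (mem_image_of_mem e hw), hCU hw⟩, ?_⟩
  rintro a ⟨ha, haU⟩ b ⟨hb, hbU⟩ hab
  refine he.injective (hVi (hV'V ha) (hV'V hb) ?_)
  rw [heq a haU, heq b hbU, hab]

variable {d : ℕ}

/-- Julia set not the sphere -/
theorem exo_cd {v u : E d} {φ : OnePoint ℂ ≃ₜ OnePoint ℂ} {K : ℝ} {T : Set (OnePoint ℂ)} {D : ℕ}
    (h : CD v u φ K T D) : EXO (Rf v) := by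
  intro L hL hLc hLf hsep hinj x0 hx0
  obtain ⟨-, c, hc, hcJ, -⟩ := closure_nonempty_iff.1 (⟨x0, hL hx0⟩ : (KJ {c | IsCrit (Rf v) c} (JS (Rf v)) (Rf v)).Nonempty)
  have hJ : φ c ∈ JS (Rf u) := (js_conj φ (fun y => (h.conj y).symm) c).2 hcJ
  have hi : φ c ≠ OnePoint.infty := by
    intro h1
    rw [h1] at hJ
    exact hJ h.ga.fi
  obtain ⟨c1, hc1⟩ := OnePoint.ne_infty_iff_exists.1 hi
  have hcr1 : IsCrit (Rf u) (c1 : OnePoint ℂ) := by
    rw [hc1]
    exact (isCrit_conj φ h.conj c).2 hc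
  rw [← hc1] at hJ
  obtain ⟨δ0, hG⟩ := geo_cd h hcr1 hJ
  have hb1 : (pol u.2).eval c1 ≠ 0 := h.ga.bne hJ
  have hCr1 : Cr (pol u.1) (pol u.2) c1 := ⟨hb1, (Pool.Agent.H18.UP.crit_iff hG hb1).1 hcr1⟩
  obtain ⟨δ, η, ρ, hPS⟩ := ps_ga h.ga hG hJ hCr1
  obtain ⟨δ', hPS', hesc⟩ := ps_he h.ga hPS
  have hCU := cu_cd h hG
  -- the chart map
  obtain ⟨e, he⟩ : ∃ e : ℂ → OnePoint ℂ, e = fun w : ℂ => φ.symm (w : OnePoint ℂ) := ⟨_, rfl⟩
  have hemb : IsOpenEmbedding e := he ▸ φ.symm.isOpenEmbedding.comp OnePoint.isOpenEmbedding_coe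
  have hea : ∀ w : ℂ, e w = φ.symm (w : OnePoint ℂ) := fun w => by rw [he]
  have hφe : ∀ w : ℂ, φ (e w) = (w : OnePoint ℂ) := fun w => by rw [hea, φ.apply_symm_apply]
  have hec : Continuous e := hemb.continuous
  have hei : Function.Injective e := hemb.injective
  have hpr : φ.symm OnePoint.infty ∉ range e := by
    rintro ⟨w, hw⟩
    have h1 := congrArg φ hw
    rw [hφe, φ.apply_symm_apply] at h1
    exact OnePoint.coe_ne_infty w h1
  have heq : ∀ w ∈ {z : ℂ | (pol u.2).eval z ≠ 0}, (Rf v) (e w) = e (gg (pol u.1) (pol u.2) w) := by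
    intro w hw
    have h1 := h.conj (e w)
    rw [hφe] at h1
    have h2 : Rf u (w : OnePoint ℂ) = ((gg (pol u.1) (pol u.2) w : ℂ) : OnePoint ℂ) := rat_coe_of_ne hw
    rw [h2] at h1
    rw [hea (gg (pol u.1) (pol u.2) w), h1, φ.symm_apply_apply]
  have hPQ : ∀ z : ℂ, z ∈ PJ (pol u.1) (pol u.2) (JC u) ↔ e z ∈ KJ {c | IsCrit (Rf v) c} (JS (Rf v)) (Rf v) := by
    intro z
    constructor
    · intro hz
      have h1 := (ps_pj hCU z).2 hz
      rw [← hφe] at h1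
      exact (ps_conj hCU (e z)).1 h1
    · intro hz
      have h1 : φ (e z) ∈ Pool.Agent.H18.UP.PS (Rf u) := (ps_conj hCU (e z)).2 hz
      rw [hφe] at h1
      exact (ps_pj hCU z).1 h1
  have hPJ := pj_sub hG
  have hKJ : ∀ x ∈ KJ {c | IsCrit (Rf v) c} (JS (Rf v)) (Rf v), x ∈ range e := by
    intro x hx
    have h1 : φ x ∈ JS (Rf u) := by
      refine (js_conj φ (fun y => (h.conj y).symm) x).2 ?_
      exact Pool.Agent.H64.JS.kj_sub (js_closed (Rf v)) (fun x hx => by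
        have h3 : φ x ∈ JS (Rf u) := (js_conj φ (fun y => (h.conj y).symm) x).2 hx
        have h4 := h.ga.js 1 h3
        rw [Function.iterate_one, h.conj] at h4
        exact (js_conj φ (fun y => (h.conj y).symm) _).1 h4) hx
    have h2 : φ x ≠ OnePoint.infty := by
      intro h3
      rw [h3] at h1
      exact h1 h.ga.fi
    obtain ⟨z, hz⟩ := OnePoint.ne_infty_iff_exists.1 h2
    exact ⟨z, by rw [hea, hz, φ.symm_apply_apply]⟩
  obtain ⟨L', hL'⟩ : ∃ L' : Set ℂ, L' = e ⁻¹' L := ⟨_, rfl⟩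
  have hL'm : ∀ z, z ∈ L' ↔ e z ∈ L := fun z => by rw [hL']; rfl
  have hL'P : L' ⊆ PJ (pol u.1) (pol u.2) (JC u) := fun z hz => (hPQ z).2 (hL ((hL'm z).1 hz))
  have hL'c : IsCompact L' := by
    refine (jc_comp h.ga).of_isClosed_subset ?_ (hL'P.trans hPJ)
    rw [hL']
    exact hLc.preimage hec
  have hPU : PJ (pol u.1) (pol u.2) (JC u) ⊆ {z : ℂ | (pol u.2).eval z ≠ 0} := fun z hz => h.ga.bne (hPJ hz)
  have hL'f : ∀ z ∈ L', gg (pol u.1) (pol u.2) z ∈ L' := by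
    intro z hz
    rw [hL'm, ← heq z (hPU (hL'P hz))]
    exact hLf _ ((hL'm z).1 hz)
  have hcc : ∀ z ∈ L', connectedComponentIn (KJ {c | IsCrit (Rf v) c} (JS (Rf v)) (Rf v)) (e z) =
      e '' connectedComponentIn (PJ (pol u.1) (pol u.2) (JC u)) z :=
    fun z hz => comp_ch hemb hPQ hKJ (hL'P hz)
  obtain ⟨z0, rfl⟩ := hKJ x0 (hL hx0)
  have hz0 : z0 ∈ L' := (hL'm z0).2 hx0
  have hfin := pt_ps hPS' hesc hL'c hL'P hL'f
    (fun z hz => full_of_sph hemb hpr (by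
      rw [← hcc z hz]
      exact hsep _ ((hL'm z).1 hz)))
    (fun z hz => inj_ch hemb hPS.Uo ((connectedComponentIn_subset _ z).trans hPU) heq (by
      rw [← hcc z hz]
      exact hinj _ ((hL'm z).1 hz)))
    (c := c1) hJ (fun z hz hcz => by
      obtain ⟨V, hV, hVi⟩ := hinj _ ((hL'm z).1 hz)
      have h1 : e c1 ∈ connectedComponentIn (KJ {c | IsCrit (Rf v) c} (JS (Rf v)) (Rf v)) (e z) := by
        rw [hcc z hz]
        exact mem_image_of_mem e hcz
      have h2 : e c1 = c := by rw [hea, hc1, φ.symm_apply_apply]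
      rw [h2] at h1
      exact hc ⟨V, nhds_le_nhdsSet h1 hV, hVi⟩) hz0
  rw [hcc z0 hz0, hfin, image_singleton]

end Pool.Agent.H39.HO
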