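import Pool.Agent.H39.HO.CU
import Pool.Agent.H56.TH.TH

/-!
# THEOREM H without total disconnectedness: collars with uniform constants, escape, pull back

`rcol`: for `z ∈ L` a chart `A` and a compact `S ⊆ A` such that windows in `A` around `z` can be cut, at a cost at most
`C`, or without any cost if they are thin. `resc`: discs which stay long in `N` are small. `comp_sub`: bounded open sets
with boundary in a component of an open set. `rpull`: the pull back of a window is a window in `A`, not longer in `S`.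
-/

set_option autoImplicit false

open Filter Topology Metric Set MeasureTheory
open scoped MeasureTheory

namespace Pool.Agent.H39.HO

open Pool.Agent.H56.TH

variable {f : ℂ → ℂ} {P L N : Set ℂ} {ρ : ℂ → ENNReal}

/-- a collar in the chart -/
private theorem col_in {A Q P : Set ℂ} (hAo : IsOpen A) (hQA : Q ⊆ A) (hQP : Q ⊆ P) (hQn : Q.Nonempty)
    (hQc : IsCompact Q) (hcl : IsClosed (P \ Q)) :
    ∃ d : ℝ, Col P Q d ∧ (∀ w, infDist w Q ≤ 3 * d → w ∈ A) := by
  obtain ⟨r, hr0, hr⟩ := Metric.exists_pos_forall_lt_edist hQc hcl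
    (Set.disjoint_left.2 fun x hx hx' => hx'.2 hx)
  obtain ⟨e, he, heA⟩ := hQc.exists_cthickening_subset_open hAo hQA
  refine ⟨min (e / 3) ((r : ℝ) / 4), ⟨?_, hQc, hQn, hQP, ?_⟩, ?_⟩
  · exact lt_min (by positivity) (by
      have : (0 : ℝ) < r := by exact_mod_cast hr0
      positivity)
  · intro p hp hpQ q hq
    have h1 := hr q hq p ⟨hp, hpQ⟩
    rw [edist_comm, edist_nndist] at h1
    have h2 : (r : NNReal) < nndist p q := by exact_mod_cast h1
    have h3 : (r : ℝ) < dist p q := by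
      rw [← coe_nndist]
      exact_mod_cast h2
    have h4 := min_le_right (e / 3) ((r : ℝ) / 4)
    linarith
  · intro w hw
    apply heA
    obtain ⟨q, hq, hqd⟩ := hQc.exists_infDist_eq_dist hQn w
    refine mem_cthickening_of_dist_le w q e Q hq ?_
    rw [← hqd]
    have h4 := min_le_left (e / 3) ((r : ℝ) / 4)
    linarith

theorem rcol (hH : HW f P L N ρ) :
    ∃ (C : ENNReal) (η : ℝ), C ≠ ⊤ ∧ 0 < η ∧ ∀ z ∈ L, ∃ A S : Set ℂ, IsOpen A ∧ A ⊆ N ∧ InjOn f A ∧
      IsCompact S ∧ S ⊆ A ∧ z ∈ A ∧ ∀ V : Set ℂ, RW P A V → V ⊆ A → z ∈ V →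
        (∃ V' : Set ℂ, Wn P V' ∧ z ∈ V' ∧ V' ⊆ V ∧ frontier V' ⊆ N ∧
          len ρ V' ≤ (∫⁻ w in frontier V ∩ S, ρ w ∂(μH[1] : Measure ℂ)) + C) ∧
        ((∀ y ∈ V, ∃ b ∈ frontier V, dist y b < η) →
          ∃ V' : Set ℂ, Wn P V' ∧ z ∈ V' ∧ V' ⊆ V ∧ frontier V' ⊆ N ∧
            len ρ V' ≤ ∫⁻ w in frontier V ∩ S, ρ w ∂(μH[1] : Measure ℂ)) := by
  classical
  rcases L.eq_empty_or_nonempty with hLe | hLn
  · exact ⟨0, 1, by simp, one_pos, fun z hz => by simp [hLe] at hz⟩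
  have h1 : ∀ c : L, ∃ (A Q : Set ℂ) (d : ℝ), IsOpen A ∧ Full A ∧ A ⊆ N ∧ InjOn f A ∧ (c : ℂ) ∈ Q ∧
      Col P Q d ∧ (∀ w, infDist w Q ≤ 3 * d → w ∈ A) := by
    intro c
    obtain ⟨A, Q, hA1, hA2, hA3, hA4, hQ1, hQ2, hQ3, hQ4, hQ5⟩ := hH.ch c c.2
    obtain ⟨d, hd1, hd2⟩ := col_in hA1 hQ2 hQ3 ⟨_, hQ1⟩ hQ4 hQ5
    exact ⟨A, Q, d, hA1, hA2, hA3, hA4, hQ1, hd1, hd2⟩
  choose A Q d hA1 hA2 hA3 hA4 hcQ hC hAQ using h1
  have hNQ : ∀ (c : L) (w : ℂ), infDist w (Q c) ≤ 3 * d c → w ∈ N := fun c w hw => hA3 c (hAQ c w hw)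
  have hpl := fun c : L => rcut_plain (hC c) hH.met (hNQ c) (hA2 c) (hAQ c)
  have hga := fun c : L => rcut_gain (hC c) hH.met (hNQ c) (hA2 c) (hAQ c)
  choose Cc hCtop hpl using hpl
  choose ηc hη0 hga using hga
  have hmin : ∀ (g : L → ℝ), (∀ c, 0 < g c) → ∀ t : Finset L, ∃ m : ℝ, 0 < m ∧ ∀ c ∈ t, m ≤ g c := by
    intro g hg t
    induction t using Finset.induction_on with
    | empty => exact ⟨1, one_pos, fun c hc => absurd hc (Finset.notMem_empty c)⟩
    | insert a s _ ih =>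
      obtain ⟨m, hm, hmc⟩ := ih
      refine ⟨min m (g a), lt_min hm (hg a), fun c hc => ?_⟩
      rcases Finset.mem_insert.1 hc with h | h
      · rw [h]
        exact min_le_right _ _
      · exact (min_le_left _ _).trans (hmc c h)
  obtain ⟨t, ht⟩ := hH.Lc.elim_nhds_subcover' (fun x hx => {w | infDist w (Q ⟨x, hx⟩) < d ⟨x, hx⟩}) (by
    intro x hx
    have hop : IsOpen {w | infDist w (Q ⟨x, hx⟩) < d ⟨x, hx⟩} :=
      isOpen_lt (continuous_infDist_pt _) continuous_const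
    refine hop.mem_nhds ?_
    show infDist x (Q ⟨x, hx⟩) < d ⟨x, hx⟩
    rw [infDist_zero_of_mem (hcQ ⟨x, hx⟩)]
    exact (hC ⟨x, hx⟩).d0)
  obtain ⟨η, hη, hηc⟩ := hmin ηc hη0 t
  refine ⟨∑ c ∈ t, Cc c, η, ENNReal.sum_ne_top.2 fun c _ => hCtop c, hη, fun z hz => ?_⟩
  obtain ⟨c, hct, hzc⟩ := mem_iUnion₂.1 (ht hz)
  have hzc' : infDist z (Q c) < d c := hzc
  have hd := (hC c).d0
  have hSA : {w | infDist w (Q c) ≤ 2 * d c} ⊆ A c := fun w hw => hAQ c w (by
    have h2 : infDist w (Q c) ≤ 2 * d c := hw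
    linarith)
  have hScl : IsClosed {w | infDist w (Q c) ≤ 2 * d c} :=
    isClosed_le (continuous_infDist_pt _) continuous_const
  refine ⟨A c, {w | infDist w (Q c) ≤ 2 * d c}, hA1 c, hA3 c, hA4 c,
    isCompact_of_isClosed_isBounded hScl (col_vol (hC c) _).1, hSA, hAQ c z (by linarith), ?_⟩
  intro V hV hVA hzV
  constructor
  · obtain ⟨V', h1, h2, h3, h4, h5, h6⟩ := hpl c V z hV hzV hzc'
    refine ⟨V', h1, h2, h3, h5.trans (hA3 c), h6.trans (add_le_add le_rfl ?_)⟩
    exact Finset.single_le_sum (f := Cc) (fun _ _ => zero_le) hct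
  · intro hthin
    by_cases hcr : ∃ y ∈ V, 2 * d c ≤ infDist y (Q c)
    · obtain ⟨V', h1, h2, h3, h4, h5, h6⟩ := hga c V z hV hzV hzc' hcr (fun w hw => by
        obtain ⟨b, hb, hwb⟩ := hthin w hw
        exact ⟨b, hb, hwb.trans_le (hηc c hct)⟩)
      exact ⟨V', h1, h2, h3, h5.trans (hA3 c), h6⟩
    · push Not at hcr
      have hVS : closure V ⊆ {w | infDist w (Q c) ≤ 2 * d c} :=
        closure_minimal (fun w hw => (hcr w hw).le) hScl
      have hfS : frontier V ⊆ {w | infDist w (Q c) ≤ 2 * d c} := frontier_subset_closure.trans hVS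
      refine ⟨V, ⟨hV.op, hV.co, ?_, ?_⟩, hzV, subset_rfl, hfS.trans (hSA.trans (hA3 c)), ?_⟩
      · intro O hO hOb hOf
        have h2 : O ⊆ A c := hA2 c O hO hOb (hOf.trans hVA)
        refine hV.fu O hO hOb ?_ hOf
        rw [closure_eq_self_union_frontier]
        exact union_subset h2 (hOf.trans hVA)
      · rw [Set.disjoint_left]
        intro w hw hwP
        exact hV.fr w hw (hSA (hfS hw)) hwP
      · unfold len
        rw [inter_eq_left.2 hfS]

theorem resc (hH : HW f P L N ρ) {r : ℝ} (hr : 0 < r) :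
    ∃ i₀ : ℕ, ∀ i ≥ i₀, ∀ z : ℂ, ¬ ∀ j ≤ i, ∀ w ∈ ball z r, f^[j] w ∈ N := by
  by_contra hcon
  push Not at hcon
  have h1 : ∀ n : ℕ, ∃ z : ℂ, ∀ j ≤ n, ∀ w ∈ ball z r, f^[j] w ∈ N := by
    intro n
    obtain ⟨i, hi, z, hz⟩ := hcon n
    exact ⟨z, fun j hj => hz j (hj.trans hi)⟩
  choose z hz using h1
  obtain ⟨R, hR⟩ := hH.Nb.subset_closedBall (0 : ℂ)
  have h2 : ∀ n, z n ∈ closedBall (0 : ℂ) R := by
    intro n
    have h3 := hz n 0 (Nat.zero_le _) (z n) (mem_ball_self hr)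
    simp only [Function.iterate_zero, id] at h3
    exact hR h3
  obtain ⟨a, -, φ, hφ, hlim⟩ := (isCompact_closedBall (0 : ℂ) R).tendsto_subseq h2
  obtain ⟨j, w, hw, hj⟩ := hH.esc (ball a (r / 2)) isOpen_ball ⟨a, mem_ball_self (by linarith)⟩
  obtain ⟨M, hM⟩ := Metric.tendsto_atTop.1 hlim (r / 2) (by linarith)
  have h6 := hM (max M j) (le_max_left _ _)
  refine hj (hz (φ (max M j)) j ((le_max_right M j).trans (hφ.id_le _)) w ?_)
  rw [mem_ball] at hw ⊢
  simp only [Function.comp] at h6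
  rw [dist_comm] at h6
  linarith [dist_triangle w a (z (φ (max M j)))]

/-- the frontier of a component of an open set -/
theorem comp_fr {O : Set ℂ} (hO : IsOpen O) (z : ℂ) :
    frontier (connectedComponentIn O z) ∩ O = ∅ := by
  rw [Set.eq_empty_iff_forall_notMem]
  rintro w ⟨hw, hwO⟩
  have h1 : IsOpen (connectedComponentIn O z) := hO.connectedComponentIn
  rw [frontier, h1.interior_eq] at hw
  obtain ⟨hw1, hw2⟩ := hw
  have h2 : connectedComponentIn O w ∈ 𝓝 w :=
    hO.connectedComponentIn.mem_nhds (mem_connectedComponentIn hwO)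
  obtain ⟨y, hy1, hy2⟩ := mem_closure_iff_nhds.1 hw1 _ h2
  have h3 := connectedComponentIn_eq hy1
  have h4 := connectedComponentIn_eq hy2
  rw [← h3] at h4
  rw [h4] at hw2
  exact hw2 (mem_connectedComponentIn hwO)

/-- a bounded open set has boundary points -/
theorem fr_ne {O : Set ℂ} (hne : O.Nonempty) (hb : Bornology.IsBounded O) : (frontier O).Nonempty := by
  by_contra h
  rw [Set.not_nonempty_iff_eq_empty, frontier_eq_empty_iff] at h
  rcases h with h | h
  · rw [h] at hne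
    exact Set.not_nonempty_empty hne
  · rw [h] at hb
    exact NoncompactSpace.noncompact_univ (X := ℂ) (isCompact_of_isClosed_isBounded isClosed_univ hb)

/-- bounded open subsets with boundary in a component -/
theorem comp_sub {W : Set ℂ} {z : ℂ} {O : Set ℂ} (hO : IsOpen O) (hb : Bornology.IsBounded O) (hOW : O ⊆ W)
    (hf : frontier O ⊆ connectedComponentIn W z) : O ⊆ connectedComponentIn W z := by
  intro o ho
  obtain ⟨O', hO'⟩ : ∃ O', O' = connectedComponentIn O o := ⟨_, rfl⟩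
  have h1 : IsOpen O' := hO' ▸ hO.connectedComponentIn
  have h2 : O' ⊆ O := hO' ▸ connectedComponentIn_subset O o
  have h3 : o ∈ O' := hO' ▸ mem_connectedComponentIn ho
  have h4 : frontier O' ⊆ frontier O := by
    intro w hw
    have hw1 : w ∉ O := by
      intro hwO
      have h5 := comp_fr hO o
      rw [← hO'] at h5
      have h6 : w ∈ frontier O' ∩ O := ⟨hw, hwO⟩
      rw [h5] at h6
      exact h6
    rw [frontier, hO.interior_eq]
    exact ⟨closure_mono h2 (frontier_subset_closure hw), hw1⟩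
  obtain ⟨w, hw⟩ := fr_ne ⟨o, h3⟩ (hb.subset h2)
  have h5 : closure O' ⊆ W := by
    rw [closure_eq_self_union_frontier]
    exact union_subset (h2.trans hOW) (h4.trans (hf.trans (connectedComponentIn_subset W z)))
  have h6 : IsPreconnected (closure O') := (hO' ▸ isPreconnected_connectedComponentIn : IsPreconnected O').closure
  have h7 : closure O' ⊆ connectedComponentIn W w :=
    h6.subset_connectedComponentIn (frontier_subset_closure hw) h5
  rw [← connectedComponentIn_eq (hf (h4 hw))] at h7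
  exact h7 (subset_closure h3)

end Pool.Agent.H39.HO
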