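import Pool.Agent.H39.HO.Defs
import Pool.Agent.H56.TH.CT
import Pool.Agent.H56.TH.CV

/-!
# THEOREM H without total disconnectedness: cuts of windows in `A` along a grid

`rcircle`: circles around boundary points. `rcut_len`: the cut along a grid in a layer. `rright_low`: a thin window
which crosses the collar has much boundary outside. `rvol_thin`: area and length. The proofs are those of H56/TH/CT,
CR, CV (for windows of the plane) with all discs inside `A`.
-/

set_option autoImplicit false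

open Filter Topology Metric Set MeasureTheory
open scoped MeasureTheory

namespace Pool.Agent.H39.HO

open Pool.Agent.H56.TH

theorem rcircle {P A V : Set ℂ} (hV : RW P A V) {b : ℂ} (hb : b ∈ frontier V)
    {s : ℝ} (hs : 0 < s) (hA : closedBall b s ⊆ A) (h : ¬ V ⊆ closedBall b s) :
    (sphere b s ∩ frontier V).Nonempty := by
  have hb' := hb
  rw [frontier, hV.op.interior_eq] at hb'
  obtain ⟨hb1, hb2⟩ := hb'
  have h1 : (V ∩ sphere b s).Nonempty := by
    by_contra hne
    rw [Set.not_nonempty_iff_eq_empty] at hne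
    have hsub : V ⊆ ball b s ∪ (closedBall b s)ᶜ := by
      intro z hz
      by_cases hz1 : dist z b < s
      · exact Or.inl hz1
      · right
        intro hz2
        have h3 : z ∈ sphere b s := le_antisymm hz2 (not_lt.1 hz1)
        have h4 : z ∈ V ∩ sphere b s := ⟨hz, h3⟩
        rw [hne] at h4
        exact h4
    obtain ⟨z, hz1, hz2⟩ := Metric.mem_closure_iff.1 hb1 s hs
    rw [Set.not_subset] at h
    obtain ⟨z', hz1', hz2'⟩ := h
    obtain ⟨w, -, hw1, hw2⟩ := hV.co (ball b s) (closedBall b s)ᶜ isOpen_ball isClosed_closedBall.isOpen_compl hsub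
      ⟨z, hz1, by rw [mem_ball, dist_comm]; exact hz2⟩ ⟨z', hz1', hz2'⟩
    exact hw2 (ball_subset_closedBall hw1)
  by_contra hne
  rw [Set.not_nonempty_iff_eq_empty] at hne
  have hcov : ∀ z ∈ sphere b s, z ∉ V → z ∈ (closure V)ᶜ := by
    intro z hz hz1 hz2
    have h3 : z ∈ sphere b s ∩ frontier V := ⟨hz, by rw [frontier, hV.op.interior_eq]; exact ⟨hz2, hz1⟩⟩
    rw [hne] at h3
    exact h3
  have hsV : sphere b s ⊆ V := by
    intro z hz
    by_contra hzV
    obtain ⟨y, hy1, hy2⟩ := h1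
    obtain ⟨w, -, hw1, hw2⟩ := (sph_con b hs.le).isPreconnected V (closure V)ᶜ hV.op
      isClosed_closure.isOpen_compl (by
      intro u hu
      by_cases hu1 : u ∈ V
      · exact Or.inl hu1
      · exact Or.inr (hcov u hu hu1)) ⟨y, hy2, hy1⟩ ⟨z, hz, hcov z hz hzV⟩
    exact hw2 (subset_closure hw1)
  have hbV : ball b s ⊆ V := by
    apply hV.fu (ball b s) isOpen_ball isBounded_ball (closure_ball_subset_closedBall.trans hA)
    rw [frontier_ball b hs.ne']
    exact hsV
  exact hb2 (hbV (mem_ball_self hs))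

theorem rcut_len {P Q V A O : Set ℂ} {ρ : ℂ → ENNReal} {d s h : ℝ} (hC : Col P Q d) (hM : Mt ρ P O)
    (hO : ∀ w, infDist w Q ≤ 3 * d → w ∈ O) (hA : Full A) (hAQ : ∀ w, infDist w Q ≤ 3 * d → w ∈ A)
    (hV : RW P A V) {x : ℂ} (hx : x ∈ V) (hxQ : infDist x Q < d) (hh : 0 < h)
    (hs : d ≤ s) (hs2 : s + 3 * h ≤ 2 * d) :
    ∃ V' : Set ℂ, Wn P V' ∧ x ∈ V' ∧ V' ⊆ V ∧ V' ⊆ A ∧ frontier V' ⊆ A ∧
      len ρ V' ≤ (∫⁻ w in frontier V ∩ {w | infDist w Q ≤ s + 3 * h}, ρ w ∂(μH[1] : Measure ℂ)) +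
        ENNReal.ofReal (32 / (d * h)) * volume (V ∩ lay Q s (s + 3 * h)) := by
  have hd := hC.d0
  have hLc := lay_closed Q s (s + 3 * h)
  have hAm : MeasurableSet (V ∩ lay Q s (s + 3 * h)) := hV.op.measurableSet.inter hLc.measurableSet
  have hAf : volume (V ∩ lay Q s (s + 3 * h)) ≠ ⊤ :=
    ((measure_mono fun w hw => (hw.2.2.trans hs2 : infDist w Q ≤ 2 * d)).trans_lt
      (col_vol hC (2 * d)).2).ne
  obtain ⟨a, b, hab⟩ := grid_shift hAm hAf hh
  obtain ⟨Y, hY⟩ : ∃ Y : Set ℂ,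
      Y = connectedComponentIn (V \ (grd a b h ∩ lay Q s (s + 3 * h))) x := ⟨_, rfl⟩
  obtain ⟨hYo, hYp, hxY, hYV, hlt, hfr⟩ := grid_cut hV.op hx hh (hxQ.trans_le hs) hY
  have hYA : Y ⊆ A := fun w hw => hAQ w (by have := hlt w hw; linarith)
  have hfYA : frontier Y ⊆ A := by
    intro w hw
    apply hAQ
    have h1 : w ∈ closure Y := frontier_subset_closure hw
    have h2 : closure Y ⊆ {w | infDist w Q ≤ s + 3 * h} :=
      closure_minimal (fun w hw => (hlt w hw).le) (isClosed_le (continuous_infDist_pt Q) continuous_const)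
    have h3 : infDist w Q ≤ s + 3 * h := h2 h1
    linarith
  have hfilA : fill Y ⊆ A := fill_sub hYA hA
  have hfilV : fill Y ⊆ V := by
    rintro w (hw | ⟨O', ⟨h1, h2, h3⟩, hw⟩)
    · exact hYV hw
    · have h4 : O' ⊆ A := hA O' h1 h2 (h3.trans hYA)
      have h5 : closure O' ⊆ A := by
        rw [closure_eq_self_union_frontier]
        exact union_subset h4 (h3.trans hYA)
      exact hV.fu O' h1 h2 h5 (h3.trans hYV) hw
  have hfr2 : frontier (fill Y) ⊆ (frontier V ∩ {w | infDist w Q ≤ s + 3 * h}) ∪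
      (V ∩ (grd a b h ∩ lay Q s (s + 3 * h))) := (fill_front hYo).trans hfr
  have hlay : ∀ w ∈ lay Q s (s + 3 * h), d ≤ infDist w Q ∧ infDist w Q ≤ 2 * d :=
    fun w hw => ⟨hs.trans hw.1, hw.2.trans hs2⟩
  refine ⟨fill Y, ⟨fill_open hYo, fill_pre hYo hYp, fill_full hYo, ?_⟩, sub_fill Y hxY,
    hfilV, hfilA, (fill_front hYo).trans hfYA, ?_⟩
  · rw [Set.disjoint_left]
    intro z hz hzP
    rcases hfr2 hz with h1 | h1
    · exact hV.fr z h1.1 (((fill_front hYo).trans hfYA) hz) hzP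
    · obtain ⟨e1, e2⟩ := hlay z h1.2.2
      exact (col_dist hC e1 e2).2.1 hzP
  · have hS2 : V ∩ (grd a b h ∩ lay Q s (s + 3 * h)) =
        grd a b h ∩ (V ∩ lay Q s (s + 3 * h)) := by
      ext w
      simp only [Set.mem_inter_iff]
      tauto
    have hm2 : MeasurableSet (grd a b h ∩ (V ∩ lay Q s (s + 3 * h))) :=
      (grd_closed a b hh).measurableSet.inter hAm
    have hρ : ∀ w ∈ grd a b h ∩ (V ∩ lay Q s (s + 3 * h)), ρ w ≤ ENNReal.ofReal (16 / d) := by
      intro w hw
      obtain ⟨e1, e2⟩ := hlay w hw.2.2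
      refine hM.up w d hd (fun z hz => hO z ?_) (col_dist hC e1 e2).1
      have e3 := infDist_le_infDist_add_dist (s := Q) (x := z) (y := w)
      rw [mem_ball] at hz
      linarith
    have hnum : ENNReal.ofReal (32 / (d * h)) = ENNReal.ofReal (16 / d) * ENNReal.ofReal (2 / h) := by
      rw [← ENNReal.ofReal_mul (by positivity)]
      congr 1
      field_simp
      norm_num
    calc len ρ (fill Y)
        ≤ ∫⁻ w in (frontier V ∩ {w | infDist w Q ≤ s + 3 * h}) ∪
            (grd a b h ∩ (V ∩ lay Q s (s + 3 * h))), ρ w ∂(μH[1] : Measure ℂ) := by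
          unfold len
          rw [← hS2]
          exact lintegral_mono_set hfr2
      _ ≤ (∫⁻ w in frontier V ∩ {w | infDist w Q ≤ s + 3 * h}, ρ w ∂(μH[1] : Measure ℂ)) +
            ∫⁻ w in grd a b h ∩ (V ∩ lay Q s (s + 3 * h)), ρ w ∂(μH[1] : Measure ℂ) :=
          lintegral_union_le _ _ _
      _ ≤ _ := by
          refine add_le_add le_rfl ?_
          calc ∫⁻ w in grd a b h ∩ (V ∩ lay Q s (s + 3 * h)), ρ w ∂(μH[1] : Measure ℂ)
              ≤ ∫⁻ _ in grd a b h ∩ (V ∩ lay Q s (s + 3 * h)), ENNReal.ofReal (16 / d)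
                  ∂(μH[1] : Measure ℂ) := setLIntegral_mono' hm2 hρ
            _ = ENNReal.ofReal (16 / d) *
                  (μH[1] : Measure ℂ) (grd a b h ∩ (V ∩ lay Q s (s + 3 * h))) :=
                setLIntegral_const _ _
            _ ≤ ENNReal.ofReal (16 / d) * (ENNReal.ofReal (2 / h) *
                  volume (V ∩ lay Q s (s + 3 * h))) := by gcongr
            _ = _ := by rw [hnum, mul_assoc]

/-- discs around points of the collar are in `A` -/
private theorem cb_A {Q A : Set ℂ} {d : ℝ} (hAQ : ∀ w, infDist w Q ≤ 3 * d → w ∈ A) {b : ℂ} {s : ℝ}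
    (h : infDist b Q + s ≤ 3 * d) : closedBall b s ⊆ A := by
  intro w hw
  apply hAQ
  have h1 := infDist_le_infDist_add_dist (s := Q) (x := w) (y := b)
  have h2 := mem_closedBall.1 hw
  linarith

theorem rright_low {P Q V A O : Set ℂ} {ρ : ℂ → ENNReal} {d η : ℝ} (hC : Col P Q d) (hM : Mt ρ P O)
    (hO : ∀ w, infDist w Q ≤ 3 * d → w ∈ O) (hAQ : ∀ w, infDist w Q ≤ 3 * d → w ∈ A) (hV : RW P A V) {x y : ℂ}
    (hx : x ∈ V) (hxQ : infDist x Q < d)
    (hy : y ∈ V) (hyQ : 2 * d ≤ infDist y Q) (hη : η ≤ d / 16)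
    (hn : ∀ z ∈ V, ∃ b ∈ frontier V, dist z b < η) :
    ENNReal.ofReal (1 / 16) ≤
      ∫⁻ w in frontier V ∩ {w | 3 / 2 * d < infDist w Q ∧ infDist w Q < 2 * d}, ρ w ∂(μH[1] : Measure ℂ) := by
  have hd := hC.d0
  have hcont : Continuous fun w : ℂ => infDist w Q := continuous_infDist_pt Q
  obtain ⟨y₁, hy₁, hy₁Q⟩ : ∃ y₁ ∈ V, infDist y₁ Q = 7 / 4 * d := by
    have h1 : (7 / 4 * d) ∈ Icc (infDist x Q) (infDist y Q) := ⟨by linarith, by linarith⟩
    obtain ⟨y₁, h2, h3⟩ := hV.co.intermediate_value hx hy hcont.continuousOn h1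
    exact ⟨y₁, h2, h3⟩
  obtain ⟨b, hb, hbd⟩ := hn y₁ hy₁
  have hb1 : 27 / 16 * d < infDist b Q := by
    have h1 := infDist_le_infDist_add_dist (s := Q) (x := y₁) (y := b)
    linarith
  have hb2 : infDist b Q < 29 / 16 * d := by
    have h1 := infDist_le_infDist_add_dist (s := Q) (x := b) (y := y₁)
    rw [dist_comm] at h1
    linarith
  have hS : MeasurableSet (frontier V ∩ {w : ℂ | 3 / 2 * d < infDist w Q ∧ infDist w Q < 2 * d}) :=
    isClosed_frontier.measurableSet.inter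
      ((isOpen_lt continuous_const hcont).inter (isOpen_lt hcont continuous_const)).measurableSet
  have hcirc : ∀ s : ℝ, 0 < s → s < d / 8 →
      (sphere b s ∩ (frontier V ∩ {w : ℂ | 3 / 2 * d < infDist w Q ∧ infDist w Q < 2 * d})).Nonempty := by
    intro s hs0 hs1
    obtain ⟨w, hw1, hw2⟩ := rcircle hV hb hs0 (cb_A hAQ (by linarith)) (by
      intro hsub
      have h1 := mem_closedBall.1 (hsub hx)
      have h2 := infDist_le_infDist_add_dist (s := Q) (x := b) (y := x)
      rw [dist_comm] at h2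
      linarith)
    rw [mem_sphere] at hw1
    refine ⟨w, mem_sphere.2 hw1, hw2, ?_, ?_⟩
    · have h1 := infDist_le_infDist_add_dist (s := Q) (x := b) (y := w)
      rw [dist_comm] at h1
      linarith
    · have h1 := infDist_le_infDist_add_dist (s := Q) (x := w) (y := b)
      linarith
  have hρ : ∀ w ∈ frontier V ∩ {w : ℂ | 3 / 2 * d < infDist w Q ∧ infDist w Q < 2 * d},
      ENNReal.ofReal (1 / (2 * d)) ≤ ρ w := by
    rintro w ⟨-, h1, h2⟩
    obtain ⟨-, -, h3, h4⟩ := col_dist hC (w := w) (by linarith) h2.le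
    refine le_trans (ENNReal.ofReal_le_ofReal ?_) (hM.lo w (hO w (by linarith)))
    exact one_div_le_one_div_of_le (by linarith) h4
  have h := lint_dist hS (c := 1 / (2 * d)) (r := d / 8) (by positivity) hcirc hρ
  refine le_trans (le_of_eq ?_) h
  congr 1
  field_simp
  norm_num

theorem rvol_thin {P Q V A O : Set ℂ} {ρ : ℂ → ENNReal} {d η t : ℝ} (hC : Col P Q d) (hM : Mt ρ P O)
    (hO : ∀ w, infDist w Q ≤ 3 * d → w ∈ O) (hAQ : ∀ w, infDist w Q ≤ 3 * d → w ∈ A) (hV : RW P A V) {x : ℂ}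
    (hx : x ∈ V) (hxQ : infDist x Q < d)
    (hη0 : 0 < η) (hη : η ≤ d / 16) (ht : d ≤ t) (hn : ∀ z ∈ V, ∃ b ∈ frontier V, dist z b < η) :
    volume (V ∩ {w | t + 3 * η ≤ infDist w Q ∧ infDist w Q ≤ 7 / 4 * d}) ≤
      ENNReal.ofReal (160 * η * d) *
        ∫⁻ w in frontier V ∩ {w | t < infDist w Q ∧ infDist w Q < 2 * d}, ρ w ∂(μH[1] : Measure ℂ) := by
  have hd := hC.d0
  set E : Set ℂ := {b | b ∈ frontier V ∧ t + 2 * η < infDist b Q ∧ infDist b Q < 7 / 4 * d + η} with hE
  have hinf : ∀ a b : ℂ, infDist a Q ≤ infDist b Q + dist a b := fun a b => infDist_le_infDist_add_dist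
  obtain ⟨u, huE, hud, huc⟩ := Vitali.exists_disjoint_subfamily_covering_enlargement_closedBall E
    (fun b : ℂ => b) (fun _ => η) η (fun _ _ => le_rfl) 5 (by norm_num)
  have hcount : u.Countable := hud.countable_of_nonempty_interior fun b _ => by
    have : b ∈ interior (closedBall b η) := ball_subset_interior_closedBall (mem_ball_self hη0)
    exact ⟨b, this⟩
  -- the covering
  have hcov : V ∩ {w | t + 3 * η ≤ infDist w Q ∧ infDist w Q ≤ 7 / 4 * d} ⊆
      ⋃ b ∈ u, closedBall b (5 * η) := by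
    rintro z ⟨hzV, hz1, hz2⟩
    obtain ⟨b, hbf, hzb⟩ := hn z hzV
    have h1 := hinf z b
    have h2 := hinf b z
    rw [dist_comm b z] at h2
    have hbE : b ∈ E := ⟨hbf, by linarith, by linarith⟩
    obtain ⟨b', hb', hsub⟩ := huc b hbE
    exact mem_iUnion₂.2 ⟨b', hb', hsub (mem_closedBall.2 hzb.le)⟩
  have hvol : volume (V ∩ {w | t + 3 * η ≤ infDist w Q ∧ infDist w Q ≤ 7 / 4 * d}) ≤
      ∑' b : u, volume (closedBall (b : ℂ) (5 * η)) :=
    (measure_mono hcov).trans (measure_biUnion_le volume hcount _)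
  -- the lengths
  have hlen : ∀ b ∈ u, ENNReal.ofReal (1 / (2 * d) * η) ≤
      ∫⁻ w in frontier V ∩ ball b η, ρ w ∂(μH[1] : Measure ℂ) := by
    intro b hb
    obtain ⟨hbf, hb1, hb2⟩ := huE hb
    refine lint_dist (b := b) (isClosed_frontier.measurableSet.inter measurableSet_ball) (by positivity) ?_ ?_
    · intro s hs hsη
      have hnot : ¬ V ⊆ closedBall b s := by
        intro h
        have h1 := mem_closedBall.1 (h hx)
        have h2 := hinf b x
        rw [dist_comm b x] at h2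
        linarith
      obtain ⟨w, hw1, hw2⟩ := rcircle hV hbf hs (cb_A hAQ (by linarith)) hnot
      refine ⟨w, hw1, hw2, mem_ball.2 ?_⟩
      rw [mem_sphere.1 hw1]
      exact hsη
    · rintro w ⟨_, hwb⟩
      have hwb' := mem_ball.1 hwb
      have h1 := hinf w b
      have h2 := hinf b w
      rw [dist_comm b w] at h2
      obtain ⟨_, _, h3, h4⟩ := col_dist hC (w := w) (by linarith) (by linarith)
      refine le_trans (ENNReal.ofReal_le_ofReal ?_) (hM.lo w (hO w (by linarith)))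
      exact one_div_le_one_div_of_le (by linarith) h4
  have hdis : u.PairwiseDisjoint fun b : ℂ => frontier V ∩ ball b η := by
    intro b hb b' hb' hbb
    have := hud hb hb' hbb
    refine Disjoint.mono ?_ ?_ this
    · exact inter_subset_right.trans ball_subset_closedBall
    · exact inter_subset_right.trans ball_subset_closedBall
  have hsubR : (⋃ b ∈ u, frontier V ∩ ball b η) ⊆ frontier V ∩ {w | t < infDist w Q ∧ infDist w Q < 2 * d} := by
    intro w hw
    obtain ⟨b, hb, hwf, hwb⟩ := mem_iUnion₂.1 hw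
    obtain ⟨hbf, hb1, hb2⟩ := huE hb
    have hwb' := mem_ball.1 hwb
    have h1 := hinf w b
    have h2 := hinf b w
    rw [dist_comm b w] at h2
    exact ⟨hwf, by linarith, by linarith⟩
  have hsum : ∑' _ : u, ENNReal.ofReal (1 / (2 * d) * η) ≤
      ∫⁻ w in frontier V ∩ {w | t < infDist w Q ∧ infDist w Q < 2 * d}, ρ w ∂(μH[1] : Measure ℂ) := by
    calc ∑' _ : u, ENNReal.ofReal (1 / (2 * d) * η)
        ≤ ∑' b : u, ∫⁻ w in frontier V ∩ ball (b : ℂ) η, ρ w ∂(μH[1] : Measure ℂ) :=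
          ENNReal.tsum_le_tsum fun b => hlen b b.2
      _ = ∫⁻ w in ⋃ b ∈ u, frontier V ∩ ball b η, ρ w ∂(μH[1] : Measure ℂ) :=
          (lintegral_biUnion hcount
            (fun b _ => isClosed_frontier.measurableSet.inter measurableSet_ball) hdis ρ).symm
      _ ≤ _ := lintegral_mono_set hsubR
  refine hvol.trans (le_trans ?_ (mul_le_mul_right hsum (ENNReal.ofReal (160 * η * d))))
  rw [← ENNReal.tsum_mul_left]
  refine ENNReal.tsum_le_tsum fun b => ?_
  rw [Complex.volume_closedBall, ← ENNReal.ofReal_pow (by positivity), ← ENNReal.ofReal_mul (by positivity)]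
  have hpi : ((NNReal.pi : NNReal) : ENNReal) = ENNReal.ofReal Real.pi := by
    rw [ENNReal.ofReal, ← NNReal.coe_real_pi, Real.toNNReal_coe]
  rw [hpi, ← ENNReal.ofReal_mul (by positivity)]
  apply ENNReal.ofReal_le_ofReal
  have h1 : 160 * η * d * (1 / (2 * d) * η) = 80 * η ^ 2 := by
    field_simp
    ring
  rw [h1]
  have h2 : Real.pi < 3.15 := Real.pi_lt_d2
  have h3 : 0 < η ^ 2 := by positivity
  nlinarith [mul_lt_mul_of_pos_left h2 h3]

end Pool.Agent.H39.HO
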