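import Pool.Agent.H56.TH.Defs

/-!
# THEOREM H without total disconnectedness: definitions

`RW`: windows in an open set `A` (no holes inside `A`, no boundary points on `P` inside `A`).
`HW`: the setting: `L ⊆ P` compact, `f L ⊆ L`, every point of `L` has an open set `A` without holes on which `f` is
injective and which contains a clopen piece of `P` around the point; `N` contains all these sets. See think 1818.
-/

set_option autoImplicit false

open Filter Topology Metric Set MeasureTheory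
open scoped MeasureTheory

namespace Pool.Agent.H39.HO

open Pool.Agent.H56.TH

/-- windows in `A` -/
structure RW (P A V : Set ℂ) : Prop where
  op : IsOpen V
  co : IsPreconnected V
  fu : ∀ O : Set ℂ, IsOpen O → Bornology.IsBounded O → closure O ⊆ A → frontier O ⊆ V → O ⊆ V
  fr : ∀ w ∈ frontier V, w ∈ A → w ∉ P

/-- the setting: charts `A` (open, without holes, `f` injective on `A`) around clopen pieces `Q` of `P` -/
structure HW (f : ℂ → ℂ) (P L N : Set ℂ) (ρ : ℂ → ENNReal) : Prop where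
  No : IsOpen N
  Nb : Bornology.IsBounded N
  Pc : IsClosed P
  Lc : IsCompact L
  LP : L ⊆ P
  Lf : ∀ z ∈ L, f z ∈ L
  Pf : ∀ z ∈ P, z ∈ N → f z ∈ P
  fd : DifferentiableOn ℂ f N
  ch : ∀ z ∈ L, ∃ A Q : Set ℂ, IsOpen A ∧ Full A ∧ A ⊆ N ∧ InjOn f A ∧ z ∈ Q ∧ Q ⊆ A ∧ Q ⊆ P ∧ IsCompact Q ∧
    IsClosed (P \ Q)
  met : Mt ρ P N
  ct : ∀ w ∈ N, ρ w ≤ ρ (f w) * ENNReal.ofReal ‖deriv f w‖
  esc : ∀ O : Set ℂ, IsOpen O → O.Nonempty → ∃ j : ℕ, ∃ w ∈ O, f^[j] w ∉ N

end Pool.Agent.H39.HO
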