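import Pool.Agent.H39.HO.PB

/-!
# THEOREM H without total disconnectedness

`rst`: for all `i` and `z ∈ L` there is a window around `z` which stays `i` steps in `N`, with uniformly bounded length.
`rpt`: the components of `P` at the points of `L` are points.
-/

set_option autoImplicit false

open Filter Topology Metric Set MeasureTheory
open scoped MeasureTheory

namespace Pool.Agent.H39.HO

open Pool.Agent.H56.TH

variable {f : ℂ → ℂ} {P L N : Set ℂ} {ρ : ℂ → ENNReal}

theorem rst (hH : HW f P L N ρ) : ∃ Λ : ENNReal, Λ ≠ ⊤ ∧ ∀ (i : ℕ), ∀ z ∈ L, ∃ V : Set ℂ,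
    Wn P V ∧ z ∈ V ∧ frontier V ⊆ N ∧ (∀ j ≤ i, ∀ w ∈ V, f^[j] w ∈ N) ∧ len ρ V ≤ Λ := by
  obtain ⟨C, η, hC, hη, hcol⟩ := rcol hH
  obtain ⟨i₀, hi₀⟩ := resc hH hη
  have key : ∀ i : ℕ, ∀ z ∈ L, ∃ V : Set ℂ, Wn P V ∧ z ∈ V ∧ frontier V ⊆ N ∧ (∀ j ≤ i, ∀ w ∈ V, f^[j] w ∈ N) ∧
      len ρ V ≤ ((min i i₀ + 1 : ℕ) : ENNReal) * C := by
    intro i
    induction i with
    | zero =>
      intro z hz
      obtain ⟨A, S, hA1, hA2, hA3, hS1, hS2, hzA, hcut⟩ := hcol z hz
      obtain ⟨V, hV1, hV2, hV3, hV4, hV5⟩ := rpull hH hz hA1 hA2 hA3 hzA hS1 hS2 (wn_univ P) (mem_univ _) (by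
        rw [frontier_univ]
        exact empty_subset _)
      obtain ⟨V', h1, h2, h3, h4, h5⟩ := (hcut V hV1 hV2 hV3).1
      refine ⟨V', h1, h2, h4, ?_, ?_⟩
      · intro j hj w hw
        obtain rfl : j = 0 := Nat.le_zero.1 hj
        exact hA2 (hV2 (h3 hw))
      · refine h5.trans ?_
        have h7 : len ρ (univ : Set ℂ) = 0 := by
          unfold len
          rw [frontier_univ, Measure.restrict_empty, lintegral_zero_measure]
        rw [h7] at hV5
        have h8 := add_le_add_left hV5 C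
        refine h8.trans (le_of_eq ?_)
        rw [zero_add, Nat.zero_min, zero_add, Nat.cast_one, one_mul]
    | succ i ih =>
      intro z hz
      obtain ⟨V₀, h01, h02, h03, h04, h05⟩ := ih (f z) (hH.Lf z hz)
      obtain ⟨A, S, hA1, hA2, hA3, hS1, hS2, hzA, hcut⟩ := hcol z hz
      obtain ⟨V, hV1, hV2, hV3, hV4, hV5⟩ := rpull hH hz hA1 hA2 hA3 hzA hS1 hS2 h01 h02 h03
      have hstay : ∀ j ≤ i + 1, ∀ w ∈ V, f^[j] w ∈ N := by
        intro j hj w hw
        cases j with
        | zero => exact hA2 (hV2 hw)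
        | succ j =>
          rw [Function.iterate_succ_apply]
          exact h04 j (by omega) (f w) (hV4 w hw)
      obtain ⟨hp, hg⟩ := hcut V hV1 hV2 hV3
      rcases Nat.lt_or_ge i i₀ with hi | hi
      · obtain ⟨V', h1, h2, h3, h4, h5⟩ := hp
        refine ⟨V', h1, h2, h4, fun j hj w hw => hstay j hj w (h3 hw), ?_⟩
        refine h5.trans ?_
        have h7 := add_le_add_left (hV5.trans h05) C
        refine h7.trans (le_of_eq ?_)
        rw [min_eq_left hi.le, min_eq_left (Nat.succ_le_of_lt hi), Nat.cast_add (i + 1) 1, add_mul,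
          Nat.cast_one, one_mul]
      · obtain ⟨V', h1, h2, h3, h4, h5⟩ := hg (by
          intro y hy
          by_contra hno
          push Not at hno
          have h9 := near_fr hV1.op hy hno
          exact hi₀ (i + 1) (by omega) y fun j hj w hw => hstay j hj w (h9 hw))
        refine ⟨V', h1, h2, h4, fun j hj w hw => hstay j hj w (h3 hw), ?_⟩
        have h8 := h5.trans (hV5.trans h05)
        rw [min_eq_right hi] at h8
        rwa [min_eq_right (hi.trans (Nat.le_succ i))]
  refine ⟨((i₀ + 1 : ℕ) : ENNReal) * C, ENNReal.mul_ne_top (ENNReal.natCast_ne_top _) hC, fun i z hz => ?_⟩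
  obtain ⟨V, h1, h2, h3, h4, h5⟩ := key i z hz
  refine ⟨V, h1, h2, h3, h4, h5.trans ?_⟩
  gcongr
  exact min_le_right _ _

/-- THE COMPONENTS OF `P` AT THE POINTS OF `L` ARE POINTS -/
theorem rpt (hH : HW f P L N ρ) {z : ℂ} (hz : z ∈ L) : connectedComponentIn P z = {z} := by
  refine Set.Subset.antisymm ?_ (singleton_subset_iff.2 (mem_connectedComponentIn (hH.LP hz)))
  intro y hy
  rw [mem_singleton_iff]
  by_contra hne
  have hd : 0 < dist y z := dist_pos.2 hne
  obtain ⟨Λ, hΛ, hst⟩ := rst hH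
  have he : 0 < 2 * Real.exp Λ.toReal := by positivity
  obtain ⟨i₁, hi₁⟩ := resc hH (div_pos hd he)
  obtain ⟨V, h1, h2, h3, h4, h5⟩ := hst i₁ z hz
  have hCV : connectedComponentIn P z ⊆ V := by
    have hpre : IsPreconnected (connectedComponentIn P z) := isPreconnected_connectedComponentIn
    have hcov : connectedComponentIn P z ⊆ V ∪ (closure V)ᶜ := by
      intro w hw
      by_cases hwV : w ∈ V
      · exact Or.inl hwV
      · right
        intro hwc
        have h6 : w ∈ frontier V := by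
          rw [frontier, h1.op.interior_eq]
          exact ⟨hwc, hwV⟩
        exact Set.disjoint_left.1 h1.fr h6 (connectedComponentIn_subset P z hw)
    exact hpre.subset_left_of_subset_union h1.op isClosed_closure.isOpen_compl
      (Set.disjoint_left.2 fun w hw hw' => hw' (subset_closure hw)) hcov
      ⟨z, mem_connectedComponentIn (hH.LP hz), h2⟩
  have hl : len ρ V ≤ ENNReal.ofReal Λ.toReal := by
    rw [ENNReal.ofReal_toReal hΛ]
    exact h5
  have h6 := thick_ball hH.met hH.Pc h1 h3 (hH.LP hz) h2 hl (hCV hy) h2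
  exact hi₁ i₁ le_rfl z fun j hj w hw => h4 j hj w (h6 hw)

end Pool.Agent.H39.HO
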